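import Mathlib

/-!
Counting integer points of a box with prescribed residues modulo several primes.
-/

namespace H31M

theorem eq_of_div_eq {x y M : ℤ} (h1 : M ∣ x - y) (h2 : x / M = y / M) : x = y := by
  have h3 : x % M = y % M := Int.ModEq.symm ((Int.modEq_iff_dvd).2 h1)
  rw [← Int.mul_ediv_add_emod x M, ← Int.mul_ediv_add_emod y M, h2, h3]

theorem box_count {J : Type*} [Fintype J] (S : Finset ℕ) (hS : ∀ p ∈ S, p.Prime)
    (Ω : (p : ℕ) → Set (J → ZMod p))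
    (hΩ : ∀ p ∈ S, Nat.card (Ω p) * (p - 1) ≤ p ^ Fintype.card J) (H : ℕ)
    (hM : ∏ p ∈ S, p ≤ 2 * H + 1) :
    ({x : J → ℤ | (∀ j, |x j| ≤ H) ∧ ∀ p ∈ S, (fun j => (x j : ZMod p)) ∈ Ω p}.ncard : ℝ) *
      ∏ p ∈ S, ((p : ℝ) - 1) ≤ (3 * (2 * H + 1)) ^ Fintype.card J := by
  classical
  set M : ℕ := ∏ p ∈ S, p with hMdef
  have hMpos : 0 < M := Finset.prod_pos fun p hp => (hS p hp).pos
  set T := {x : J → ℤ | (∀ j, |x j| ≤ H) ∧ ∀ p ∈ S, (fun j => (x j : ZMod p)) ∈ Ω p} with hT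
  have : ∀ p : S, NeZero (p : ℕ) := fun p => ⟨(hS p p.2).ne_zero⟩
  have : ∀ p : S, Finite (Ω p) := fun p => inferInstance
  let I : Finset ℤ := Finset.Icc ((-(H : ℤ)) / M) ((H : ℤ) / M)
  have hMz : (0 : ℤ) < M := by exact_mod_cast hMpos
  have hmem : ∀ x : J → ℤ, (∀ j, |x j| ≤ H) → ∀ j, x j / (M : ℤ) ∈ I := by
    intro x hx j
    have := abs_le.1 (hx j)
    exact Finset.mem_Icc.2 ⟨Int.ediv_le_ediv hMz this.1, Int.ediv_le_ediv hMz this.2⟩
  let φ : T → (∀ p : S, Ω p) × (J → I) := fun x =>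
    (fun p => ⟨fun j => (x.1 j : ZMod p), x.2.2 p p.2⟩, fun j => ⟨x.1 j / (M : ℤ),
      hmem x.1 x.2.1 j⟩)
  have hinj : Function.Injective φ := by
    rintro ⟨x, hx⟩ ⟨y, hy⟩ h
    apply Subtype.ext
    funext j
    have h1 : ∀ p ∈ S, ((p : ℕ) : ℤ) ∣ x j - y j := by
      intro p hp
      have h2 := congrArg (fun t => (t.1 ⟨p, hp⟩ : J → ZMod p) j) h
      simp only [φ] at h2
      have h3 : ((x j - y j : ℤ) : ZMod p) = 0 := by
        push_cast
        rw [h2, sub_self]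
      exact (ZMod.intCast_zmod_eq_zero_iff_dvd _ _).1 h3
    have h4 : (M : ℤ) ∣ x j - y j := by
      rw [Int.natCast_dvd, hMdef]
      apply Finset.prod_primes_dvd
      · intro p hp; exact (hS p hp).prime
      · intro p hp; exact Int.natCast_dvd.1 (h1 p hp)
    have h5 : x j / (M : ℤ) = y j / (M : ℤ) := by
      have := congrArg (fun t => ((t.2 j : I) : ℤ)) h
      exact this
    exact eq_of_div_eq h4 h5
  have hcard : T.ncard ≤ (∏ p ∈ S, Nat.card (Ω p)) * (I.card) ^ Fintype.card J := by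
    rw [← Nat.card_coe_set_eq]
    refine (Nat.card_le_card_of_injective φ hinj).trans ?_
    rw [Nat.card_prod, Nat.card_pi, Nat.card_fun, Nat.card_eq_fintype_card (α := I),
      Fintype.card_coe, Nat.card_eq_fintype_card (α := J)]
    apply le_of_eq
    congr 1
    exact Finset.prod_coe_sort S (fun p => Nat.card (Ω p))
  -- the length of `I`
  have hI : (I.card : ℝ) * M ≤ 3 * (2 * H + 1) := by
    have h1 : (I.card : ℤ) ≤ (H : ℤ) / M - (-(H : ℤ)) / M + 1 := by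
      have h2 : (-(H : ℤ)) / M ≤ (H : ℤ) / M := Int.ediv_le_ediv hMz (by omega)
      simp only [I, Int.card_Icc]
      rw [Int.toNat_of_nonneg (by linarith)]
      linarith
    have h2 : (H : ℤ) / M * M ≤ H := Int.ediv_mul_le _ hMz.ne'
    have h3 : -(H : ℤ) < ((-(H : ℤ)) / M + 1) * M := Int.lt_ediv_add_one_mul_self _ hMz
    have h4 : (I.card : ℤ) * M ≤ 3 * (2 * H + 1) := by
      have h5 : (I.card : ℤ) * M ≤ ((H : ℤ) / M - (-(H : ℤ)) / M + 1) * M :=
        mul_le_mul_of_nonneg_right h1 hMz.le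
      have h6 : (M : ℤ) ≤ 2 * H + 1 := by exact_mod_cast hM
      nlinarith
    exact_mod_cast h4
  have hprod : (∏ p ∈ S, (Nat.card (Ω p) : ℝ)) * ∏ p ∈ S, ((p : ℝ) - 1) ≤
      (M : ℝ) ^ Fintype.card J := by
    rw [← Finset.prod_mul_distrib, hMdef, Nat.cast_prod, ← Finset.prod_pow]
    apply Finset.prod_le_prod
    · intro p hp
      have : (1 : ℝ) ≤ p := by exact_mod_cast (hS p hp).one_lt.le
      have h0 : (0 : ℝ) ≤ Nat.card (Ω p) := Nat.cast_nonneg _
      exact mul_nonneg h0 (by linarith)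
    · intro p hp
      have h1 := hΩ p hp
      have h2 : ((p : ℝ) - 1) = ((p - 1 : ℕ) : ℝ) := by
        rw [Nat.cast_sub (hS p hp).one_lt.le]; simp
      rw [h2]
      exact_mod_cast h1
  have hp1 : (0 : ℝ) ≤ ∏ p ∈ S, ((p : ℝ) - 1) := by
    apply Finset.prod_nonneg
    intro p hp
    have : (1 : ℝ) ≤ p := by exact_mod_cast (hS p hp).one_lt.le
    linarith
  calc (T.ncard : ℝ) * ∏ p ∈ S, ((p : ℝ) - 1)
      ≤ ((∏ p ∈ S, (Nat.card (Ω p) : ℝ)) * (I.card : ℝ) ^ Fintype.card J) *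
          ∏ p ∈ S, ((p : ℝ) - 1) := by
        apply mul_le_mul_of_nonneg_right _ hp1
        exact_mod_cast hcard
    _ = ((∏ p ∈ S, (Nat.card (Ω p) : ℝ)) * ∏ p ∈ S, ((p : ℝ) - 1)) *
          (I.card : ℝ) ^ Fintype.card J := by ring
    _ ≤ (M : ℝ) ^ Fintype.card J * (I.card : ℝ) ^ Fintype.card J :=
        mul_le_mul_of_nonneg_right hprod (by positivity)
    _ = ((I.card : ℝ) * M) ^ Fintype.card J := by rw [mul_pow]; ring
    _ ≤ (3 * (2 * H + 1)) ^ Fintype.card J := pow_le_pow_left₀ (by positivity) hI _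

end H31M
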