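import Pool.Agent.Helper31_Mean.Dens
import Pool.Agent.Helper31_Mean.Box

/-!
Counting the polynomials of the box with bad reduction at all primes of a finite set.
-/

open Polynomial NumberField

namespace H31M

theorem fiber_count {A B : Type*} [AddCommGroup A] [AddCommGroup B] [Finite A] [Finite B]
    (φ : A →+ B) (hφ : Function.Surjective φ) (T : Set B) :
    Nat.card (φ ⁻¹' T) * Nat.card B ≤ Nat.card T * Nat.card A := by
  obtain ⟨s, hs⟩ := hφ.hasRightInverse
  let F : (φ ⁻¹' T) × B → T × A := fun x => (⟨φ x.1, x.1.2⟩, x.1 + s x.2)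
  have hF : Function.Injective F := by
    rintro ⟨⟨a, ha⟩, b⟩ ⟨⟨a', ha'⟩, b'⟩ h
    have h1 : φ a = φ a' := congrArg (fun t => (t.1 : B)) h
    have h2 : a + s b = a' + s b' := congrArg (fun t => t.2) h
    have h3 : b = b' := by
      have := congrArg φ h2
      rw [map_add, map_add, hs, hs, h1] at this
      exact add_left_cancel this
    subst h3
    have h4 : a = a' := add_right_cancel h2
    subst h4
    rfl
  have := Nat.card_le_card_of_injective F hF
  rwa [Nat.card_prod, Nat.card_prod] at this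

section

variable {K : Type} [Field K] [NumberField K] {ι : Type} [Fintype ι]
  (b : Module.Basis ι ℤ (𝓞 K))

/-- reduction of coordinates modulo `p`, then to the residue field -/
noncomputable def red (P : Ideal (𝓞 K)) (p : ℕ) [CharP (𝓞 K ⧸ P) p] (n : ℕ) :
    (Fin n × ι → ZMod p) →+ (Fin n → 𝓞 K ⧸ P) where
  toFun y := fun i => ∑ j, ZMod.castHom (dvd_refl p) (𝓞 K ⧸ P) (y (i, j)) * Ideal.Quotient.mk P (b j)
  map_zero' := by
    funext i
    simp
  map_add' y z := by
    funext i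
    simp [add_mul, Finset.sum_add_distrib]

theorem red_cast (P : Ideal (𝓞 K)) (p : ℕ) [CharP (𝓞 K ⧸ P) p] (n : ℕ) (a : Fin n → 𝓞 K)
    (i : Fin n) :
    red b P p n (fun x : Fin n × ι => ((b.repr (a x.1) x.2 : ℤ) : ZMod p)) i =
      Ideal.Quotient.mk P (a i) := by
  change ∑ j, ZMod.castHom (dvd_refl p) (𝓞 K ⧸ P) ((b.repr (a i) j : ℤ) : ZMod p) *
    Ideal.Quotient.mk P (b j) = _
  conv_rhs => rw [← b.sum_repr (a i)]
  rw [map_sum]
  apply Finset.sum_congr rfl
  intro j _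
  rw [map_intCast, zsmul_eq_mul, map_mul, map_intCast]

theorem red_surjective (P : Ideal (𝓞 K)) (p : ℕ) [CharP (𝓞 K ⧸ P) p] (n : ℕ) :
    Function.Surjective (red b P p n) := by
  intro z
  choose a ha using fun i => Ideal.Quotient.mk_surjective (z i)
  refine ⟨fun x : Fin n × ι => ((b.repr (a x.1) x.2 : ℤ) : ZMod p), ?_⟩
  funext i
  rw [red_cast, ha]

/-- coordinates with non-separable reduction -/
def Om (P : Ideal (𝓞 K)) (p : ℕ) [CharP (𝓞 K ⧸ P) p] (n : ℕ) : Set (Fin n × ι → ZMod p) :=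
  red b P p n ⁻¹' {z | ¬ (poly z).Separable}

theorem charP_quot (P : Ideal (𝓞 K)) [hP : P.IsPrime] (p : ℕ) (hp : p.Prime)
    (hpP : ((p : ℕ) : 𝓞 K) ∈ P) : CharP (𝓞 K ⧸ P) p := by
  have h1 : ((p : ℕ) : 𝓞 K ⧸ P) = 0 := by
    have := Ideal.Quotient.eq_zero_iff_mem.2 hpP
    simpa using this
  have h3 := CharP.ringChar_of_prime_eq_zero hp h1
  rw [← h3]
  exact ringChar.charP _

theorem card_Om (P : Ideal (𝓞 K)) [hP : P.IsPrime] (p : ℕ) (hp : p.Prime)
    (hpP : ((p : ℕ) : 𝓞 K) ∈ P) [CharP (𝓞 K ⧸ P) p] (n : ℕ) :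
    Nat.card (Om b P p n) * (p - 1) ≤ p ^ Fintype.card (Fin n × ι) := by
  classical
  have hPne : P ≠ ⊥ := by
    rintro rfl
    rw [Ideal.mem_bot, Nat.cast_eq_zero] at hpP
    exact hp.ne_zero hpP
  have hPmax : P.IsMaximal := hP.isMaximal hPne
  letI : Field (𝓞 K ⧸ P) := Ideal.Quotient.field P
  have hfin : Finite (𝓞 K ⧸ P) := by
    have h1 : Ideal.absNorm P ≠ 0 := by
      rw [Ne, Ideal.absNorm_eq_zero_iff]
      exact hPne
    exact Ideal.absNorm_ne_zero_iff _ |>.1 h1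
  haveI : NeZero p := ⟨hp.ne_zero⟩
  letI : Fintype (𝓞 K ⧸ P) := Fintype.ofFinite _
  set q := Fintype.card (𝓞 K ⧸ P) with hq
  have hpq : p ≤ q := by
    have h1 : p ∣ q := by
      rw [hq]
      exact (CharP.cast_eq_zero_iff (𝓞 K ⧸ P) p _).1 (FiniteField.cast_card_eq_zero _)
    exact Nat.le_of_dvd Fintype.card_pos h1
  have h1 := fiber_count (red b P p n) (red_surjective b P p n) {z | ¬ (poly z).Separable}
  have h2 := card_nonsep (k := 𝓞 K ⧸ P) (n := n)
  have hA : Nat.card (Fin n × ι → ZMod p) = p ^ Fintype.card (Fin n × ι) := by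
    rw [Nat.card_eq_fintype_card, Fintype.card_fun, ZMod.card]
  have hB : Nat.card (Fin n → 𝓞 K ⧸ P) = q ^ n := by
    rw [Nat.card_eq_fintype_card, Fintype.card_fun, Fintype.card_fin]
  rw [hA, hB] at h1
  change Nat.card (Om b P p n) * q ^ n ≤ Nat.card {z : Fin n → 𝓞 K ⧸ P // ¬ (poly z).Separable} *
    p ^ Fintype.card (Fin n × ι) at h1
  have hq0 : 0 < q ^ n := pow_pos Fintype.card_pos _
  have h3 : Nat.card (Om b P p n) * (q - 1) ≤ p ^ Fintype.card (Fin n × ι) := by
    apply Nat.le_of_mul_le_mul_left _ hq0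
    calc q ^ n * (Nat.card (Om b P p n) * (q - 1))
        = (Nat.card (Om b P p n) * q ^ n) * (q - 1) := by ring
      _ ≤ (Nat.card {z : Fin n → 𝓞 K ⧸ P // ¬ (poly z).Separable} *
          p ^ Fintype.card (Fin n × ι)) * (q - 1) := Nat.mul_le_mul_right _ h1
      _ = (Nat.card {z : Fin n → 𝓞 K ⧸ P // ¬ (poly z).Separable} * (q - 1)) *
          p ^ Fintype.card (Fin n × ι) := by ring
      _ ≤ q ^ n * p ^ Fintype.card (Fin n × ι) := Nat.mul_le_mul_right _ h2
  exact (Nat.mul_le_mul_left _ (Nat.sub_le_sub_right hpq 1)).trans h3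

/-- The number of polynomials of the box which have bad reduction at all primes of `S`. -/
theorem bad_count (P : ℕ → Ideal (𝓞 K)) (hP : ∀ p, p.Prime → (P p).IsPrime ∧
      ((p : ℕ) : 𝓞 K) ∈ P p) (n : ℕ) (S : Finset ℕ) (hS : ∀ p ∈ S, p.Prime) (H : ℕ)
    (hM : ∏ p ∈ S, p ≤ 2 * H + 1) :
    ({a : Fin n → 𝓞 K | (∀ i j, |b.repr (a i) j| ≤ H) ∧
        ∀ p ∈ S, ¬ ((poly a).map (Ideal.Quotient.mk (P p))).Separable}.ncard : ℝ) *
      ∏ p ∈ S, ((p : ℝ) - 1) ≤ (3 * (2 * H + 1)) ^ Fintype.card (Fin n × ι) := by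
  classical
  have hch : ∀ p ∈ S, CharP (𝓞 K ⧸ P p) p := fun p hp => by
    haveI := (hP p (hS p hp)).1
    exact charP_quot (P p) p (hS p hp) (hP p (hS p hp)).2
  let Ω : (p : ℕ) → Set (Fin n × ι → ZMod p) := fun p =>
    if hp : p ∈ S then (haveI := hch p hp; Om b (P p) p n) else ∅
  have hΩ : ∀ p ∈ S, Nat.card (Ω p) * (p - 1) ≤ p ^ Fintype.card (Fin n × ι) := by
    intro p hp
    haveI := hch p hp
    haveI := (hP p (hS p hp)).1
    have h1 : Ω p = Om b (P p) p n := by simp only [Ω, dif_pos hp]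
    rw [h1]
    exact card_Om b (P p) p (hS p hp) (hP p (hS p hp)).2 n
  have hmain := box_count (J := Fin n × ι) S hS Ω hΩ H hM
  refine le_trans ?_ hmain
  apply mul_le_mul_of_nonneg_right
  · let co : (Fin n → 𝓞 K) → (Fin n × ι → ℤ) := fun a x => b.repr (a x.1) x.2
    have hco : Function.Injective co := by
      intro a a' h
      funext i
      apply b.repr.injective
      ext j
      exact congrFun h (i, j)
    have hfin : {x : Fin n × ι → ℤ | (∀ j, |x j| ≤ H) ∧
        ∀ p ∈ S, (fun j => (x j : ZMod p)) ∈ Ω p}.Finite := by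
      apply Set.Finite.subset (Set.Finite.pi' (fun _ : Fin n × ι => Set.finite_Icc (-(H : ℤ)) H))
      intro x hx j
      exact Set.mem_Icc.2 (abs_le.1 (hx.1 j))
    have h1 := Set.ncard_le_ncard_of_injOn (s := {a : Fin n → 𝓞 K | (∀ i j, |b.repr (a i) j| ≤ H) ∧
        ∀ p ∈ S, ¬ ((poly a).map (Ideal.Quotient.mk (P p))).Separable})
      (t := {x : Fin n × ι → ℤ | (∀ j, |x j| ≤ H) ∧ ∀ p ∈ S, (fun j => (x j : ZMod p)) ∈ Ω p})
      co (by
        rintro a ⟨ha1, ha2⟩
        refine ⟨fun x => ha1 x.1 x.2, ?_⟩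
        intro p hp
        haveI := hch p hp
        have h1 : Ω p = Om b (P p) p n := by simp only [Ω, dif_pos hp]
        rw [h1]
        change ¬ (poly (red b (P p) p n (fun x : Fin n × ι => ((b.repr (a x.1) x.2 : ℤ) : ZMod p)))).Separable
        have h2 : red b (P p) p n (fun x : Fin n × ι => ((b.repr (a x.1) x.2 : ℤ) : ZMod p)) =
            fun i => Ideal.Quotient.mk (P p) (a i) := funext fun i => red_cast b (P p) p n a i
        rw [h2, ← poly_map]
        exact ha2 p hp) hco.injOn hfin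
    exact_mod_cast h1
  · apply Finset.prod_nonneg
    intro p hp
    have : (1 : ℝ) ≤ p := by exact_mod_cast (hS p hp).one_lt.le
    linarith

end

end H31M
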