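import Mathlib

/-!
Monic polynomials with a given vector of lower coefficients; the density of the non-separable
ones over a finite field.
-/

open Polynomial

namespace H31M

/-- the monic polynomial `x^n + a_(n-1) x^(n-1) + ... + a_0` -/
noncomputable def poly {R : Type*} [CommRing R] {n : ℕ} (a : Fin n → R) : R[X] :=
  X ^ n + ∑ i : Fin n, C (a i) * X ^ (i : ℕ)

section basic

variable {R : Type*} [CommRing R] {n : ℕ}

theorem degree_low (a : Fin n → R) : (∑ i : Fin n, C (a i) * X ^ (i : ℕ)).degree < (n : WithBot ℕ) := by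
  rw [← mem_degreeLT]
  apply Submodule.sum_mem
  intro i _
  rw [mem_degreeLT]
  exact lt_of_le_of_lt (degree_C_mul_X_pow_le _ _) (by exact_mod_cast i.2)

theorem poly_monic (a : Fin n → R) : (poly a).Monic := monic_X_pow_add (degree_low a)

theorem poly_natDegree [Nontrivial R] (a : Fin n → R) : (poly a).natDegree = n := by
  rw [poly, natDegree_add_eq_left_of_degree_lt]
  · exact natDegree_X_pow n
  · rw [degree_X_pow]; exact degree_low a

theorem coeff_low (a : Fin n → R) (i : Fin n) :
    (∑ j : Fin n, C (a j) * X ^ (j : ℕ)).coeff (i : ℕ) = a i := by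
  rw [finsetSum_coeff, Finset.sum_eq_single i]
  · simp
  · intro j _ hj
    rw [coeff_C_mul, coeff_X_pow, if_neg, mul_zero]
    intro h
    exact hj (Fin.ext h.symm)
  · intro h; exact absurd (Finset.mem_univ i) h

theorem poly_coeff (a : Fin n → R) (i : Fin n) : (poly a).coeff (i : ℕ) = a i := by
  rw [poly, coeff_add, coeff_low, coeff_X_pow, if_neg (by omega), zero_add]

theorem poly_map {S : Type*} [CommRing S] (φ : R →+* S) (a : Fin n → R) :
    (poly a).map φ = poly (fun i => φ (a i)) := by
  simp [poly, Polynomial.map_sum]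

theorem eq_poly {f : R[X]} (hf : f.Monic) (hn : f.natDegree = n) :
    f = poly (fun i : Fin n => f.coeff i) := by
  conv_lhs => rw [hf.as_sum, hn]
  rw [poly, Finset.sum_range]

theorem poly_injective : Function.Injective (poly : (Fin n → R) → R[X]) := by
  intro a b h
  funext i
  rw [← poly_coeff a i, h, poly_coeff]

end basic

section dens

variable {k : Type*} [Field k] [Fintype k] {n : ℕ}

theorem nonsep_form (a : Fin n → k) (ha : ¬ (poly a).Separable) :
    ∃ j ∈ Finset.Icc 1 (n / 2), ∃ (u : Fin j → k) (v : Fin (n - 2 * j) → k),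
      poly a = poly u ^ 2 * poly v := by
  rw [PerfectField.separable_iff_squarefree, Squarefree] at ha
  push Not at ha
  obtain ⟨x, ⟨r, hr⟩, hx⟩ := ha
  have hne : poly a ≠ 0 := (poly_monic a).ne_zero
  have hx0 : x ≠ 0 := by
    rintro rfl
    apply hne
    rw [hr]; ring
  have hr0 : r ≠ 0 := by
    rintro rfl
    apply hne
    rw [hr]; ring
  set l := x.leadingCoeff with hl
  have hl0 : l ≠ 0 := leadingCoeff_ne_zero.2 hx0
  set y := C l⁻¹ * x with hy
  have hymon : y.Monic := by
    rw [hy, Monic, leadingCoeff_mul, leadingCoeff_C, ← hl, inv_mul_cancel₀ hl0]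
  have hxy : x = C l * y := by
    rw [hy, ← mul_assoc, ← C_mul, mul_inv_cancel₀ hl0, C_1, one_mul]
  set s := C (l ^ 2) * r with hs
  have hfs : poly a = y ^ 2 * s := by
    rw [hr, hs, hxy, C_pow]; ring
  have hsmon : s.Monic := (hymon.pow 2).of_mul_monic_left (by rw [← hfs]; exact poly_monic a)
  have hdeg : n = 2 * y.natDegree + s.natDegree := by
    rw [← poly_natDegree a, hfs, (hymon.pow 2).natDegree_mul hsmon, hymon.natDegree_pow]
  have hypos : 1 ≤ y.natDegree := by
    by_contra h
    have h0 : y.natDegree = 0 := by omega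
    apply hx
    rw [hxy, hymon.natDegree_eq_zero.1 h0, mul_one]
    exact isUnit_C.2 (isUnit_iff_ne_zero.2 hl0)
  refine ⟨y.natDegree, Finset.mem_Icc.2 ⟨hypos, by omega⟩, fun i => y.coeff i,
    fun i => s.coeff i, ?_⟩
  rw [← eq_poly hymon rfl, ← eq_poly hsmon (by omega), hfs]

theorem card_nonsep :
    Nat.card {a : Fin n → k // ¬ (poly a).Separable} * (Fintype.card k - 1) ≤
      Fintype.card k ^ n := by
  classical
  set q := Fintype.card k with hq
  have hq1 : 1 ≤ q := Fintype.card_pos
  let A : ℕ → Finset (Fin n → k) := fun j =>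
    (Finset.univ : Finset ((Fin j → k) × (Fin (n - 2 * j) → k))).image
      (fun uv => fun i : Fin n => (poly uv.1 ^ 2 * poly uv.2).coeff (i : ℕ))
  have hA : ∀ j ∈ Finset.Icc 1 (n / 2), (A j).card ≤ q ^ (n - j) := by
    intro j hj
    rw [Finset.mem_Icc] at hj
    refine Finset.card_image_le.trans ?_
    rw [Finset.card_univ, Fintype.card_prod, Fintype.card_fun, Fintype.card_fun, Fintype.card_fin,
      Fintype.card_fin, ← pow_add]
    apply le_of_eq
    congr 1
    omega
  have h1 : (Finset.univ.filter (fun a : Fin n → k => ¬ (poly a).Separable)) ⊆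
      (Finset.Icc 1 (n / 2)).biUnion A := by
    intro a ha
    rw [Finset.mem_filter] at ha
    obtain ⟨j, hj, u, v, huv⟩ := nonsep_form a ha.2
    rw [Finset.mem_biUnion]
    refine ⟨j, hj, Finset.mem_image.2 ⟨(u, v), Finset.mem_univ _, ?_⟩⟩
    funext i
    simp only
    rw [← huv, poly_coeff]
  have h2 : Nat.card {a : Fin n → k // ¬ (poly a).Separable} =
      (Finset.univ.filter (fun a : Fin n → k => ¬ (poly a).Separable)).card := by
    rw [Nat.card_eq_fintype_card, Fintype.card_subtype]
  rw [h2]
  have h3 : (Finset.univ.filter (fun a : Fin n → k => ¬ (poly a).Separable)).card ≤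
      ∑ j ∈ Finset.Icc 1 (n / 2), q ^ (n - j) :=
    (Finset.card_le_card h1).trans (Finset.card_biUnion_le.trans (Finset.sum_le_sum hA))
  refine (Nat.mul_le_mul_right _ h3).trans ?_
  have h4 : ∀ J : ℕ, J ≤ n → (∑ j ∈ Finset.Icc 1 J, q ^ (n - j)) * (q - 1) + q ^ (n - J) = q ^ n := by
    intro J
    induction J with
    | zero => intro _; simp
    | succ J ih =>
      intro hJ
      rw [Finset.sum_Icc_succ_top (by omega)]
      rw [← ih (by omega)]
      have h5 : q ^ (n - J) = q ^ (n - (J + 1)) * q := by
        rw [← pow_succ]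
        congr 1
        omega
      rw [h5]
      obtain ⟨r, hr⟩ : ∃ r, q = r + 1 := ⟨q - 1, by omega⟩
      rw [hr]
      simp only [Nat.add_sub_cancel]
      ring
  have h6 := h4 (n / 2) (Nat.div_le_self _ _)
  omega

end dens

end H31M
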