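import Pool.Agent.Helper58_UB.ClassNumber

/-!
A polynomial bound for the class number of `k[x][y]/(y^2 - f)` over a finite field `k`.
-/

set_option linter.style.haveILetI false
set_option linter.unusedVariables false

open Polynomial H58Q

namespace H31M

section det

variable {k : Type*} [Field k]

/-- `w, c, b` are data of Hermite form of the ideal `J`. -/
structure Herm {f : k[X]} (J : Ideal (Q k f)) (w c b : k[X]) : Prop where
  hw : ∀ p : k[X], algebraMap k[X] (Q k f) p ∈ J ↔ w ∣ p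
  hc : ∀ u : Q k f, u ∈ J → c ∣ u.im
  hb : (⟨b, c⟩ : Q k f) ∈ J

theorem Herm.le {f : k[X]} {J J' : Ideal (Q k f)} {w c b : k[X]} (h : Herm J w c b)
    (h' : Herm J' w c b) : J ≤ J' := by
  intro u hu
  obtain ⟨t, ht⟩ := h.hc u hu
  have h1 : u - algebraMap k[X] (Q k f) t * ⟨b, c⟩ = algebraMap k[X] (Q k f) (u.re - t * b) := by
    apply QuadraticAlgebra.ext
    · simp
    · simp [ht]; ring
  have h2 : algebraMap k[X] (Q k f) (u.re - t * b) ∈ J := by
    rw [← h1]
    exact J.sub_mem hu (J.mul_mem_left _ h.hb)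
  have h3 : algebraMap k[X] (Q k f) (u.re - t * b) ∈ J' := (h'.hw _).2 ((h.hw _).1 h2)
  have h4 := J'.add_mem h3 (J'.mul_mem_left (algebraMap k[X] (Q k f) t) h'.hb)
  rwa [← h1, sub_add_cancel] at h4

theorem Herm.eq {f : k[X]} {J J' : Ideal (Q k f)} {w c b : k[X]} (h : Herm J w c b)
    (h' : Herm J' w c b) : J = J' := le_antisymm (h.le h') (h'.le h)

theorem exists_herm {f : k[X]} {g : ℕ} (hd : f.natDegree = 2 * g + 1) {J : Ideal (Q k f)}
    (hJ : J ≠ ⊥) (hg : colen J ≤ g) :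
    ∃ w c b : k[X], w.natDegree ≤ g ∧ c.natDegree ≤ g ∧ b.natDegree ≤ g ∧ Herm J w c b := by
  classical
  obtain ⟨w0, hw0, hw0g, hw0J⟩ := exists_poly_le hd hJ hg
  set W : Ideal k[X] := J.comap (algebraMap k[X] (Q k f)) with hW
  obtain ⟨w, hw⟩ : ∃ w, W = Ideal.span {w} := ⟨Submodule.IsPrincipal.generator W,
    (Ideal.span_singleton_generator W).symm⟩
  have hw1 : ∀ p : k[X], algebraMap k[X] (Q k f) p ∈ J ↔ w ∣ p := by
    intro p
    rw [← Ideal.mem_span_singleton, ← hw, hW, Ideal.mem_comap]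
  have hww0 : w ∣ w0 := (hw1 w0).1 hw0J
  have hwne : w ≠ 0 := by
    rintro rfl
    exact hw0 (zero_dvd_iff.1 hww0)
  have hwg : w.natDegree ≤ g := (natDegree_le_of_dvd hww0 hw0).trans hw0g
  let Y : Ideal k[X] :=
    { carrier := {v | ∃ u : Q k f, u ∈ J ∧ u.im = v}
      add_mem' := by
        rintro a b ⟨u, hu, rfl⟩ ⟨u', hu', rfl⟩
        exact ⟨u + u', J.add_mem hu hu', by simp⟩
      zero_mem' := ⟨0, J.zero_mem, by simp⟩
      smul_mem' := by
        rintro r a ⟨u, hu, rfl⟩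
        exact ⟨algebraMap k[X] (Q k f) r * u, J.mul_mem_left _ hu, by simp⟩ }
  obtain ⟨c, hc⟩ : ∃ c, Y = Ideal.span {c} := ⟨Submodule.IsPrincipal.generator Y,
    (Ideal.span_singleton_generator Y).symm⟩
  have hc1 : ∀ v : k[X], (∃ u : Q k f, u ∈ J ∧ u.im = v) ↔ c ∣ v := by
    intro v
    rw [← Ideal.mem_span_singleton, ← hc]
    exact Iff.rfl
  have hcw : c ∣ w := by
    rw [← hc1]
    refine ⟨⟨0, 1⟩ * algebraMap k[X] (Q k f) w, J.mul_mem_left _ ((hw1 w).2 dvd_rfl), ?_⟩
    simp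
  have hcg : c.natDegree ≤ g := (natDegree_le_of_dvd hcw hwne).trans hwg
  obtain ⟨u, huJ, hu⟩ := (hc1 c).2 dvd_rfl
  refine ⟨w, c, u.re % w, hwg, hcg, ?_, hw1, fun u hu => (hc1 _).1 ⟨u, hu, rfl⟩, ?_⟩
  · refine le_trans ?_ hwg
    have h1 := degree_mod_lt u.re hwne
    exact natDegree_le_natDegree h1.le
  · have h1 : (⟨u.re % w, c⟩ : Q k f) = u - algebraMap k[X] (Q k f) (w * (u.re / w)) := by
      apply QuadraticAlgebra.ext
      · have h2 : (algebraMap k[X] (Q k f) (w * (u.re / w))).re = w * (u.re / w) := by simp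
        rw [QuadraticAlgebra.re_sub, h2, eq_sub_iff_add_eq, add_comm]
        exact EuclideanDomain.div_add_mod _ _
      · simp [hu]
    rw [h1]
    exact J.sub_mem huJ ((hw1 _).2 (dvd_mul_right _ _))

end det

theorem natCard_degreeLT (k : Type*) [Field k] (n : ℕ) :
    Nat.card (degreeLT k n) = Nat.card k ^ n := by
  rw [Module.natCard_eq_pow_finrank (K := k), LinearEquiv.finrank_eq (degreeLTEquiv k n)]
  simp

/-- The class number is at most `q^(3(g+1))`. -/
theorem card_classGroup (k : Type*) [Field k] [Finite k] {f : k[X]} {g : ℕ}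
    (hd : f.natDegree = 2 * g + 1) [IsDedekindDomain (Q k f)] :
    Finite (ClassGroup (Q k f)) ∧
      Nat.card (ClassGroup (Q k f)) ≤ Nat.card k ^ (3 * (g + 1)) := by
  classical
  obtain ⟨hfin, -⟩ := H58Q.card_classGroup (k := k) hd
  refine ⟨hfin, ?_⟩
  choose J hJ hJc hJg using fun c : ClassGroup (Q k f) => exists_reduced hd c
  have hh := fun c => exists_herm hd (nonZeroDivisors.ne_zero (hJ c)) (hJg c)
  choose w c b hwg hcg hbg hH using hh
  have hmem : ∀ p : k[X], p.natDegree ≤ g → p ∈ degreeLT k (g + 1) := by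
    intro p hp
    rw [mem_degreeLT]
    exact lt_of_le_of_lt degree_le_natDegree (by exact_mod_cast Nat.lt_succ_of_le hp)
  let φ : ClassGroup (Q k f) → degreeLT k (g + 1) × degreeLT k (g + 1) × degreeLT k (g + 1) :=
    fun x => (⟨w x, hmem _ (hwg x)⟩, ⟨c x, hmem _ (hcg x)⟩, ⟨b x, hmem _ (hbg x)⟩)
  have hinj : Function.Injective φ := by
    intro x y h
    have h1 : w x = w y := congrArg (fun t => (t.1 : k[X])) h
    have h2 : c x = c y := congrArg (fun t => (t.2.1 : k[X])) h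
    have h3 : b x = b y := congrArg (fun t => (t.2.2 : k[X])) h
    have h4 := hH x
    rw [h1, h2, h3] at h4
    have h5 : J x = J y := h4.eq (hH y)
    rw [← hJc x, ← hJc y]
    congr 1
    exact Subtype.ext h5
  haveI : Finite (degreeLT k (g + 1)) := Module.finite_of_finite k
  refine (Nat.card_le_card_of_injective φ hinj).trans ?_
  rw [Nat.card_prod, Nat.card_prod, natCard_degreeLT, ← pow_add, ← pow_add]
  exact le_of_eq (by ring_nf)

end H31M
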