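import Mathlib

/-!
Binary forms of degree `d` written as polynomials; linear substitutions; forms with a double root.
-/

open Polynomial

namespace H31M

section hev

variable {R A : Type*} [CommRing R] [CommRing A] [Algebra R A]

/-- the value at `(x, y)` of the binary form of degree `d` with dehomogenization `F` -/
noncomputable def hev (d : ℕ) (F : R[X]) (x y : A) : A :=
  MvPolynomial.aeval ![x, y] (F.homogenize d)

theorem hev_add (d : ℕ) (F G : R[X]) (x y : A) : hev d (F + G) x y = hev d F x y + hev d G x y := by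
  simp [hev]

theorem hev_C_mul (d : ℕ) (c : R) (F : R[X]) (x y : A) :
    hev d (C c * F) x y = algebraMap R A c * hev d F x y := by
  simp [hev]

theorem hev_mul {m n : ℕ} {F G : R[X]} (hF : F.natDegree ≤ m) (hG : G.natDegree ≤ n) (x y : A) :
    hev (m + n) (F * G) x y = hev m F x y * hev n G x y := by
  rw [hev, homogenize_mul _ _ hF hG, map_mul]
  rfl

theorem hev_pow {m : ℕ} {F : R[X]} (hF : F.natDegree ≤ m) (x y : A) (k : ℕ) :
    hev (k * m) (F ^ k) x y = hev m F x y ^ k := by
  induction k with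
  | zero =>
    rw [pow_zero, pow_zero, Nat.zero_mul, hev, homogenize_one]
    simp
  | succ k ih =>
    rw [pow_succ, pow_succ, ← ih, Nat.succ_mul, hev_mul _ hF]
    exact (natDegree_pow_le).trans (Nat.mul_le_mul_left _ hF)

theorem hev_monomial {d i : ℕ} (h : i ≤ d) (c : R) (x y : A) :
    hev d (monomial i c) x y = algebraMap R A c * x ^ i * y ^ (d - i) := by
  rw [hev, ← C_mul_X_pow_eq_monomial, homogenize_C_mul, homogenize_X_pow h]
  simp [mul_assoc]

theorem hev_monomial_of_lt {d i : ℕ} (h : d < i) (c : R) (x y : A) :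
    hev d (monomial i c) x y = 0 := by
  rw [hev, homogenize_monomial_of_lt h, map_zero]

theorem hev_sum (d : ℕ) (F : R[X]) (x y : A) :
    hev d F x y = ∑ i ∈ Finset.range (d + 1), algebraMap R A (F.coeff i) * x ^ i * y ^ (d - i) := by
  rw [hev, homogenize, map_sum, Finset.Nat.sum_antidiagonal_eq_sum_range_succ
    (f := fun i j => MvPolynomial.aeval ![x, y]
      (MvPolynomial.monomial (fun₀ | 0 => i | 1 => j) (F.coeff i)))]
  apply Finset.sum_congr rfl
  intro i hi
  rw [Finset.mem_range] at hi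
  have h1 := hev_monomial (d := d) (i := i) (by omega) (F.coeff i) x y
  rw [hev, homogenize_monomial (by omega)] at h1
  exact h1

theorem hev_one (a b : R) (x y : A) :
    hev 1 (C a * X + C b) x y = algebraMap R A a * x + algebraMap R A b * y := by
  rw [hev_sum, Finset.sum_range_succ, Finset.sum_range_one]
  simp [add_comm]

theorem hev_smul (d : ℕ) (F : R[X]) (x y s : A) :
    hev d F (s * x) (s * y) = s ^ d * hev d F x y := by
  rw [hev_sum, hev_sum, Finset.mul_sum]
  apply Finset.sum_congr rfl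
  intro i hi
  rw [Finset.mem_range] at hi
  have h1 : s ^ d = s ^ i * s ^ (d - i) := by
    rw [← pow_add]; congr 1; omega
  rw [h1, mul_pow, mul_pow]
  ring

theorem hev_X_one {d : ℕ} {F : R[X]} (hF : F.natDegree ≤ d) : hev d F (X : R[X]) 1 = F :=
  aeval_homogenize_X_one F hF

end hev

section mob

variable {R : Type*} [CommRing R]

/-- `(γ x + δ)^d F((α x + β)/(γ x + δ))` -/
noncomputable def mob (d : ℕ) (F : R[X]) (α β γ δ : R) : R[X] :=
  hev d F (C α * X + C β) (C γ * X + C δ)

theorem mob_sum (d : ℕ) (F : R[X]) (α β γ δ : R) :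
    mob d F α β γ δ = ∑ i ∈ Finset.range (d + 1),
      C (F.coeff i) * (C α * X + C β) ^ i * (C γ * X + C δ) ^ (d - i) :=
  hev_sum d F _ _

theorem natDegree_lin (a b : R) : (C a * X + C b).natDegree ≤ 1 := natDegree_linear_le

theorem natDegree_mob_le (d : ℕ) (F : R[X]) (α β γ δ : R) :
    (mob d F α β γ δ).natDegree ≤ d := by
  rw [mob_sum]
  apply natDegree_sum_le_of_forall_le
  intro i hi
  rw [Finset.mem_range] at hi
  refine natDegree_mul_le.trans ?_
  have h1 : (C (F.coeff i) * (C α * X + C β) ^ i).natDegree ≤ i := by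
    refine (natDegree_C_mul_le _ _).trans ?_
    refine natDegree_pow_le.trans ?_
    have := natDegree_lin α β
    nlinarith
  have h2 : ((C γ * X + C δ) ^ (d - i)).natDegree ≤ d - i := by
    refine natDegree_pow_le.trans ?_
    have := natDegree_lin γ δ
    nlinarith
  omega

theorem mob_mul {m n : ℕ} {F G : R[X]} (hF : F.natDegree ≤ m) (hG : G.natDegree ≤ n)
    (α β γ δ : R) : mob (m + n) (F * G) α β γ δ = mob m F α β γ δ * mob n G α β γ δ :=
  hev_mul hF hG _ _

theorem mob_C_mul (d : ℕ) (c : R) (F : R[X]) (α β γ δ : R) :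
    mob d (C c * F) α β γ δ = C c * mob d F α β γ δ := hev_C_mul d c F _ _

theorem mob_map {S : Type*} [CommRing S] (f : R →+* S) (d : ℕ) (F : R[X]) (α β γ δ : R) :
    (mob d F α β γ δ).map f = mob d (F.map f) (f α) (f β) (f γ) (f δ) := by
  rw [mob_sum, mob_sum, Polynomial.map_sum]
  apply Finset.sum_congr rfl
  intro i _
  simp

theorem mob_comp (d : ℕ) (F : R[X]) (α β γ δ : R) (p : R[X]) :
    (mob d F α β γ δ).comp p = hev d F (C α * p + C β) (C γ * p + C δ) := by
  rw [mob_sum, hev_sum, sum_comp]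
  apply Finset.sum_congr rfl
  intro i _
  simp [pow_comp]

theorem hev_mob {A : Type*} [CommRing A] [Algebra R A] (d : ℕ) (F : R[X]) (α β γ δ : R) (x y : A) :
    hev d (mob d F α β γ δ) x y = hev d F (algebraMap R A α * x + algebraMap R A β * y)
      (algebraMap R A γ * x + algebraMap R A δ * y) := by
  induction F using Polynomial.induction_on' with
  | add p q hp hq =>
    rw [mob, hev_add, hev_add, hev_add]
    rw [mob] at hp hq
    rw [hp, hq]
  | monomial n c =>
    by_cases h : n ≤ d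
    · rw [mob, hev_monomial h, hev_monomial h, mul_assoc]
      rw [← C_eq_algebraMap, hev_C_mul]
      have h1 := hev_mul (m := n * 1) (n := (d - n) * 1) (F := (C α * X + C β) ^ n)
        (G := (C γ * X + C δ) ^ (d - n))
        (natDegree_pow_le.trans (Nat.mul_le_mul_left _ (natDegree_lin α β)))
        (natDegree_pow_le.trans (Nat.mul_le_mul_left _ (natDegree_lin γ δ))) x y
      have h2 : n * 1 + (d - n) * 1 = d := by omega
      rw [h2, hev_pow (natDegree_lin α β), hev_pow (natDegree_lin γ δ), hev_one, hev_one] at h1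
      rw [h1, mul_assoc]
    · push Not at h
      rw [mob, hev_monomial_of_lt h, hev_monomial_of_lt h]
      simp [hev]

/-- the inverse substitution -/
theorem mob_adj {d : ℕ} {F : R[X]} (hF : F.natDegree ≤ d) (α β γ δ : R) :
    mob d (mob d F α β γ δ) δ (-β) (-γ) α = C ((α * δ - β * γ) ^ d) * F := by
  rw [mob, hev_mob]
  have h1 : (algebraMap R R[X]) α * (C δ * X + C (-β)) + (algebraMap R R[X]) β * (C (-γ) * X + C α) =
      C (α * δ - β * γ) * X := by
    simp only [← C_eq_algebraMap, C_sub, C_mul, C_neg]; ring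
  have h2 : (algebraMap R R[X]) γ * (C δ * X + C (-β)) + (algebraMap R R[X]) δ * (C (-γ) * X + C α) =
      C (α * δ - β * γ) * 1 := by
    simp only [← C_eq_algebraMap, C_sub, C_mul, C_neg]; ring
  rw [h1, h2, hev_smul, hev_X_one hF, C_pow]

end mob

/-- the binary form of degree `d` has a multiple factor (or is zero) -/
def BadForm {k : Type*} [CommRing k] (d : ℕ) (F : k[X]) : Prop :=
  ∃ (j : ℕ) (h R : k[X]), 1 ≤ j ∧ 2 * j ≤ d ∧ h ≠ 0 ∧ h.natDegree ≤ j ∧
    R.natDegree ≤ d - 2 * j ∧ F = h ^ 2 * R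

section bad

variable {k : Type*} [Field k]

theorem mob_ne_zero {d : ℕ} {F : k[X]} (hF : F.natDegree ≤ d) (hF0 : F ≠ 0) {α β γ δ : k}
    (hdet : α * δ - β * γ ≠ 0) : mob d F α β γ δ ≠ 0 := by
  intro h
  have h1 := mob_adj hF α β γ δ
  rw [h] at h1
  have h2 : mob d (0 : k[X]) δ (-β) (-γ) α = 0 := by simp [mob, hev]
  rw [h2] at h1
  have h3 : C ((α * δ - β * γ) ^ d) ≠ 0 := C_ne_zero.2 (pow_ne_zero _ hdet)
  exact (mul_ne_zero h3 hF0) h1.symm

theorem BadForm.mob {d : ℕ} {F : k[X]} (hF : BadForm d F) {α β γ δ : k}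
    (hdet : α * δ - β * γ ≠ 0) : BadForm d (mob d F α β γ δ) := by
  obtain ⟨j, h, R, hj, hjd, h0, hh, hR, rfl⟩ := hF
  refine ⟨j, H31M.mob j h α β γ δ, H31M.mob (d - 2 * j) R α β γ δ, hj, hjd,
    mob_ne_zero hh h0 hdet, natDegree_mob_le _ _ _ _ _ _, natDegree_mob_le _ _ _ _ _ _, ?_⟩
  have h1 : d = (j + j) + (d - 2 * j) := by omega
  have h2 : (h * h).natDegree ≤ j + j := natDegree_mul_le.trans (by omega)
  conv_lhs => rw [h1, pow_two]
  rw [mob_mul h2 hR, mob_mul hh hh, pow_two]

theorem BadForm.C_mul {d : ℕ} {F : k[X]} (c : k) (hF : BadForm d F) : BadForm d (C c * F) := by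
  obtain ⟨j, h, R, hj, hjd, h0, hh, hR, rfl⟩ := hF
  exact ⟨j, h, C c * R, hj, hjd, h0, hh, (natDegree_C_mul_le _ _).trans hR, by ring⟩

theorem badForm_of_mob {d : ℕ} {F : k[X]} (hF : F.natDegree ≤ d) {α β γ δ : k}
    (hdet : α * δ - β * γ ≠ 0) (h : BadForm d (H31M.mob d F α β γ δ)) : BadForm d F := by
  have h1 := h.mob (α := δ) (β := -β) (γ := -γ) (δ := α)
    (by intro h; apply hdet; linear_combination h)
  rw [mob_adj hF] at h1
  have h2 := h1.C_mul ((α * δ - β * γ) ^ d)⁻¹
  rwa [← mul_assoc, ← C_mul, inv_mul_cancel₀ (pow_ne_zero _ hdet), C_1, one_mul] at h2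

theorem badForm_of_natDegree {d : ℕ} (hd : 2 ≤ d) {F : k[X]} (hF : F.natDegree ≤ d - 2) :
    BadForm d F :=
  ⟨1, 1, F, le_rfl, by omega, one_ne_zero, by simp, by omega, by ring⟩

theorem badForm_of_not_squarefree {d : ℕ} {F : k[X]} (hF : F.natDegree ≤ d) (hF0 : F ≠ 0)
    (h : ¬ Squarefree F) : BadForm d F := by
  rw [Squarefree] at h
  push Not at h
  obtain ⟨x, ⟨r, hr⟩, hx⟩ := h
  have hx0 : x ≠ 0 := by
    rintro rfl
    apply hF0; rw [hr]; ring
  have hr0 : r ≠ 0 := by
    rintro rfl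
    apply hF0; rw [hr]; ring
  have hdeg : F.natDegree = x.natDegree + x.natDegree + r.natDegree := by
    rw [hr, natDegree_mul (mul_ne_zero hx0 hx0) hr0, natDegree_mul hx0 hx0]
  have hx1 : 1 ≤ x.natDegree := by
    by_contra hlt
    apply hx
    have h0 : x.natDegree = 0 := by omega
    rw [natDegree_eq_zero] at h0
    obtain ⟨c, rfl⟩ := h0
    exact isUnit_C.2 (isUnit_iff_ne_zero.2 (fun hc => hx0 (by rw [hc, C_0])))
  exact ⟨x.natDegree, x, r, hx1, by omega, hx0, le_rfl, by omega, by rw [hr]; ring⟩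

/-- a good form with a root at infinity is a squarefree polynomial of degree `d - 1` -/
theorem good_dehom {d : ℕ} (hd : 2 ≤ d) {F : k[X]} (hF : F.natDegree ≤ d - 1)
    (h : ¬ BadForm d F) : Squarefree F ∧ F.natDegree = d - 1 := by
  have h1 : F.natDegree = d - 1 := by
    by_contra hne
    exact h (badForm_of_natDegree hd (by omega))
  refine ⟨?_, h1⟩
  by_contra hs
  refine h (badForm_of_not_squarefree (by omega) ?_ hs)
  rintro rfl
  apply h
  exact badForm_of_natDegree hd (by simp)

/-- an odd degree `d - 1` squarefree model forces the form to be good -/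
theorem not_bad_of_model {d : ℕ} (hd : 2 ≤ d) {F : k[X]} {α β γ δ : k}
    (hdet : α * δ - β * γ ≠ 0) (hs : Squarefree (H31M.mob d F α β γ δ))
    (hdeg : (H31M.mob d F α β γ δ).natDegree = d - 1) : ¬ BadForm d F := by
  intro hb
  obtain ⟨j, h, R, hj, hjd, h0, hh, hR, hFe⟩ := hb.mob hdet
  by_cases hu : IsUnit h
  · have h1 : h.natDegree = 0 := natDegree_eq_zero_of_isUnit hu
    have h2 : (H31M.mob d F α β γ δ).natDegree ≤ d - 2 := by
      rw [hFe]
      refine natDegree_mul_le.trans ?_
      have h3 : (h ^ 2).natDegree ≤ 0 := natDegree_pow_le.trans (by omega)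
      omega
    omega
  · exact hu (hs h ⟨R, by rw [hFe]; ring⟩)

theorem not_bad_of {d : ℕ} (hd : 2 ≤ d) {F : k[X]} (hs : Squarefree F)
    (hdeg : d - 1 ≤ F.natDegree) : ¬ BadForm d F := by
  rintro ⟨j, h, R, hj, hjd, h0, hh, hR, hFe⟩
  by_cases hu : IsUnit h
  · have h1 : h.natDegree = 0 := natDegree_eq_zero_of_isUnit hu
    have h2 : F.natDegree ≤ d - 2 := by
      rw [hFe]
      refine natDegree_mul_le.trans ?_
      have h3 : (h ^ 2).natDegree ≤ 0 := natDegree_pow_le.trans (by omega)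
      omega
    omega
  · exact hu (hs h ⟨R, by rw [hFe]; ring⟩)

theorem good_of {d : ℕ} (hd : 2 ≤ d) {F : k[X]} (hF : F.natDegree ≤ d) (h : ¬ BadForm d F) :
    Squarefree F ∧ d - 1 ≤ F.natDegree := by
  have h1 : d - 1 ≤ F.natDegree := by
    by_contra hne
    exact h (badForm_of_natDegree hd (by omega))
  refine ⟨?_, h1⟩
  by_contra hs
  refine h (badForm_of_not_squarefree hF ?_ hs)
  rintro rfl
  apply h
  exact badForm_of_natDegree hd (by simp)

end bad

end H31M
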