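import Pool.Agent.Helper31_Mean.Dens
import Pool.Agent.Helper31_Mean.Form

/-!
Binary forms of degree `d` with a given vector of coefficients; the density of the bad ones over a
finite field.
-/

open Polynomial

namespace H31M

/-- the polynomial `∑ a_i x^i`, `i ≤ d` -/
noncomputable def form {R : Type*} [CommRing R] {d : ℕ} (a : Fin (d + 1) → R) : R[X] :=
  ∑ i : Fin (d + 1), C (a i) * X ^ (i : ℕ)

/-- the discriminant of the binary form of degree `d` does not vanish -/
def GoodForm {R : Type*} [CommRing R] (d : ℕ) (F : R[X]) : Prop :=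
  F.Separable ∧ d - 1 ≤ F.natDegree

section basic

variable {R : Type*} [CommRing R] {d : ℕ}

theorem form_natDegree (a : Fin (d + 1) → R) : (form a).natDegree ≤ d := by
  have h := degree_low a
  rw [form]
  by_cases h0 : (∑ i : Fin (d + 1), C (a i) * X ^ (i : ℕ)) = 0
  · rw [h0]; simp
  · rw [degree_eq_natDegree h0] at h
    have : (∑ i : Fin (d + 1), C (a i) * X ^ (i : ℕ)).natDegree < d + 1 := by exact_mod_cast h
    omega

theorem form_coeff (a : Fin (d + 1) → R) (i : Fin (d + 1)) : (form a).coeff (i : ℕ) = a i :=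
  coeff_low a i

theorem form_map {S : Type*} [CommRing S] (φ : R →+* S) (a : Fin (d + 1) → R) :
    (form a).map φ = form (fun i => φ (a i)) := by
  simp [form, Polynomial.map_sum]

theorem eq_form {f : R[X]} (hn : f.natDegree ≤ d) :
    f = form (fun i : Fin (d + 1) => f.coeff i) := by
  conv_lhs => rw [f.as_sum_range' (d + 1) (by omega)]
  rw [form, Finset.sum_range]
  apply Finset.sum_congr rfl
  intro i _
  rw [C_mul_X_pow_eq_monomial]

end basic

section dens

variable {k : Type*} [Field k] [Fintype k] {d : ℕ}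

theorem bad_cases (a : Fin (d + 1) → k) (ha : ¬ GoodForm d (form a)) :
    (∀ i : Fin (d + 1), d - 1 ≤ (i : ℕ) → a i = 0) ∨
      ∃ j ∈ Finset.Icc 1 (d / 2), ∃ (u : Fin j → k) (v : Fin (d - 2 * j + 1) → k),
      form a = poly u ^ 2 * form v := by
  by_cases hdeg : d - 1 ≤ (form a).natDegree
  swap
  · left
    intro i hi
    rw [← form_coeff a i]
    exact coeff_eq_zero_of_natDegree_lt (by omega)
  by_cases hne : form a = 0
  · left
    intro i _
    rw [← form_coeff a i, hne, coeff_zero]
  right
  have hsep : ¬ (form a).Separable := fun h => ha ⟨h, hdeg⟩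
  rw [PerfectField.separable_iff_squarefree, Squarefree] at hsep
  push Not at hsep
  obtain ⟨x, ⟨r, hr⟩, hx⟩ := hsep
  have hx0 : x ≠ 0 := by
    rintro rfl
    apply hne
    rw [hr]; ring
  have hr0 : r ≠ 0 := by
    rintro rfl
    apply hne
    rw [hr]; ring
  set l := x.leadingCoeff with hl
  have hl0 : l ≠ 0 := leadingCoeff_ne_zero.2 hx0
  set y := C l⁻¹ * x with hy
  have hymon : y.Monic := by
    rw [hy, Monic, leadingCoeff_mul, leadingCoeff_C, ← hl, inv_mul_cancel₀ hl0]
  have hxy : x = C l * y := by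
    rw [hy, ← mul_assoc, ← C_mul, mul_inv_cancel₀ hl0, C_1, one_mul]
  set s := C (l ^ 2) * r with hs
  have hs0 : s ≠ 0 := mul_ne_zero (C_ne_zero.2 (pow_ne_zero _ hl0)) hr0
  have hfs : form a = y ^ 2 * s := by
    rw [hr, hs, hxy, C_pow]; ring
  have hdeg2 : 2 * y.natDegree + s.natDegree ≤ d := by
    have h1 := form_natDegree a
    rw [hfs, natDegree_mul (pow_ne_zero _ hymon.ne_zero) hs0, natDegree_pow] at h1
    exact h1
  have hypos : 1 ≤ y.natDegree := by
    by_contra h
    have h0 : y.natDegree = 0 := by omega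
    apply hx
    rw [hxy, hymon.natDegree_eq_zero.1 h0, mul_one]
    exact isUnit_C.2 (isUnit_iff_ne_zero.2 hl0)
  refine ⟨y.natDegree, Finset.mem_Icc.2 ⟨hypos, by omega⟩, fun i => y.coeff i,
    fun i => s.coeff i, ?_⟩
  rw [← eq_poly hymon rfl, ← eq_form (by omega), hfs]

theorem card_bad (hd : 2 ≤ d) :
    Nat.card {a : Fin (d + 1) → k // ¬ GoodForm d (form a)} * (Fintype.card k - 1) ≤
      2 * Fintype.card k ^ (d + 1) := by
  classical
  set q := Fintype.card k with hq
  have hq1 : 1 ≤ q := Fintype.card_pos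
  let A0 : Finset (Fin (d + 1) → k) := (Finset.univ : Finset (Fin (d - 1) → k)).image
    (fun v => fun i : Fin (d + 1) => if h : (i : ℕ) < d - 1 then v ⟨i, h⟩ else 0)
  let A : ℕ → Finset (Fin (d + 1) → k) := fun j =>
    (Finset.univ : Finset ((Fin j → k) × (Fin (d - 2 * j + 1) → k))).image
      (fun uv => fun i : Fin (d + 1) => (poly uv.1 ^ 2 * form uv.2).coeff (i : ℕ))
  have hA0 : A0.card ≤ q ^ (d - 1) := by
    refine Finset.card_image_le.trans ?_
    rw [Finset.card_univ, Fintype.card_fun, Fintype.card_fin]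
  have hA : ∀ j ∈ Finset.Icc 1 (d / 2), (A j).card ≤ q ^ (d + 1 - j) := by
    intro j hj
    rw [Finset.mem_Icc] at hj
    refine Finset.card_image_le.trans ?_
    rw [Finset.card_univ, Fintype.card_prod, Fintype.card_fun, Fintype.card_fun, Fintype.card_fin,
      Fintype.card_fin, ← pow_add]
    apply le_of_eq
    congr 1
    omega
  have h1 : (Finset.univ.filter (fun a : Fin (d + 1) → k => ¬ GoodForm d (form a))) ⊆
      A0 ∪ (Finset.Icc 1 (d / 2)).biUnion A := by
    intro a ha
    rw [Finset.mem_filter] at ha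
    rw [Finset.mem_union]
    rcases bad_cases a ha.2 with h | ⟨j, hj, u, v, huv⟩
    · left
      refine Finset.mem_image.2 ⟨fun i => a ⟨i, by omega⟩, Finset.mem_univ _, ?_⟩
      funext i
      by_cases hi : (i : ℕ) < d - 1
      · simp [hi]
      · simp only [hi, dif_neg, not_false_iff]
        exact (h i (by omega)).symm
    · right
      rw [Finset.mem_biUnion]
      refine ⟨j, hj, Finset.mem_image.2 ⟨(u, v), Finset.mem_univ _, ?_⟩⟩
      funext i
      simp only
      rw [← huv, form_coeff]
  have h2 : Nat.card {a : Fin (d + 1) → k // ¬ GoodForm d (form a)} =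
      (Finset.univ.filter (fun a : Fin (d + 1) → k => ¬ GoodForm d (form a))).card := by
    rw [Nat.card_eq_fintype_card, Fintype.card_subtype]
  rw [h2]
  have h3 : (Finset.univ.filter (fun a : Fin (d + 1) → k => ¬ GoodForm d (form a))).card ≤
      q ^ (d - 1) + ∑ j ∈ Finset.Icc 1 (d / 2), q ^ (d + 1 - j) := by
    refine (Finset.card_le_card h1).trans ((Finset.card_union_le _ _).trans ?_)
    exact Nat.add_le_add hA0 (Finset.card_biUnion_le.trans (Finset.sum_le_sum hA))
  refine (Nat.mul_le_mul_right _ h3).trans ?_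
  have h4 : ∀ J : ℕ, J ≤ d + 1 →
      (∑ j ∈ Finset.Icc 1 J, q ^ (d + 1 - j)) * (q - 1) + q ^ (d + 1 - J) = q ^ (d + 1) := by
    intro J
    induction J with
    | zero => intro _; simp
    | succ J ih =>
      intro hJ
      rw [Finset.sum_Icc_succ_top (by omega)]
      rw [← ih (by omega)]
      have h5 : q ^ (d + 1 - J) = q ^ (d + 1 - (J + 1)) * q := by
        rw [← pow_succ]
        congr 1
        omega
      rw [h5]
      obtain ⟨r, hr⟩ : ∃ r, q = r + 1 := ⟨q - 1, by omega⟩
      rw [hr]
      simp only [Nat.add_sub_cancel]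
      ring
  have h6 := h4 (d / 2) (by omega)
  have h7 : q ^ (d - 1) * (q - 1) ≤ q ^ (d + 1) := by
    calc q ^ (d - 1) * (q - 1) ≤ q ^ (d - 1) * q := Nat.mul_le_mul_left _ (Nat.sub_le _ _)
      _ = q ^ (d - 1 + 1) := (pow_succ _ _).symm
      _ ≤ q ^ (d + 1) := Nat.pow_le_pow_right hq1 (by omega)
  rw [add_mul]
  omega

end dens

end H31M
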