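import Pool.Agent.Helper31_Mean.ClassNum
import Pool.Agent.Helper58_UB.Loc
import Pool.Agent.Helper9_UBT.Glb
import Pool.Agent.Helper51_UBT.Iso
import Pool.Agent.Helper76_UBT.BC1
import Pool.Agent.Helper81_UBT.Bc2
import Pool.Agent.Helper81_UBT.Ext2

/-!
Good reduction bounds torsion up to a power of the residue characteristic, with a polynomial
bound, for all twists over all finite extensions.
-/

set_option linter.style.haveILetI false
set_option linter.unusedVariables false
set_option linter.unusedSectionVars false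

open Polynomial NumberField IsDedekindDomain H58Q

namespace H31M

section loc

variable {V : Type*} [CommRing V] [IsDomain V] [IsDiscreteValuationRing V]
variable {M : Type*} [Field M] [Algebra V M] [IsFractionRing V M]
variable {f : V[X]}

theorem loc_auxP {g : ℕ} (hf : f.Monic) (hd : f.natDegree = 2 * g + 1)
    [IsDedekindDomain (Q M (f.map (algebraMap V M)))]
    [IsDedekindDomain (Q (IsLocalRing.ResidueField V) (f.map (IsLocalRing.residue V)))]
    [Finite (IsLocalRing.ResidueField V)] (p : ℕ) [hp : Fact p.Prime]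
    [CharP (IsLocalRing.ResidueField V) p]
    (c : ClassGroup (Q M (f.map (algebraMap V M)))) (hc : IsOfFinOrder c) :
    ∃ m a : ℕ, orderOf c = m * p ^ a ∧ 1 ≤ m ∧
      m ≤ (Nat.card (IsLocalRing.ResidueField V)) ^ (3 * (g + 1)) := by
  obtain ⟨I, hI, hIc, hG⟩ := exists_good hf hd c
  have hI0 : I ≠ ⊥ := nonZeroDivisors.ne_zero hI
  have hIb0 : Ib I ≠ ⊥ := Ib_ne_bot hI0
  obtain ⟨hfin, hcard⟩ := H31M.card_classGroup (IsLocalRing.ResidueField V) (natDegree_k hf hd)
  obtain ⟨cb, hcb⟩ : ∃ cb, cb = ClassGroup.mk0 ⟨Ib I, mem_nonZeroDivisors_of_ne_zero hIb0⟩ :=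
    ⟨_, rfl⟩
  have hcn : ∀ n : ℕ, c ^ n = 1 ↔ (I ^ n).IsPrincipal := by
    intro n
    rw [← hIc, ← map_pow]
    exact ClassGroup.mk0_eq_one_iff (pow_mem hI n)
  have hcbn : ∀ n : ℕ, cb ^ n = 1 ↔ ((Ib I) ^ n).IsPrincipal := by
    intro n
    rw [hcb, ← map_pow]
    exact ClassGroup.mk0_eq_one_iff (pow_mem (mem_nonZeroDivisors_of_ne_zero hIb0) n)
  have h1 : ∀ n : ℕ, c ^ n = 1 → cb ^ n = 1 := by
    intro n hn
    rw [hcbn, ← Ib_pow hf hd hI0 hG]
    exact Ib_principal hf hd (pow_ne_zero n hI0) ((hcn n).1 hn)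
  have h2 : ∀ (n l : ℕ), l.Prime → l ≠ p → c ^ (n * l) = 1 → cb ^ n = 1 → c ^ n = 1 := by
    intro n l hl hlp hnl hn
    rw [hcn] at hnl ⊢
    rw [hcbn, ← Ib_pow hf hd hI0 hG] at hn
    rw [pow_mul] at hnl
    refine principal_of_red hf hd (pow_ne_zero n hI0) (hG.pow n) hl.one_lt.le ?_ hnl hn
    intro h
    rw [CharP.cast_eq_zero_iff (IsLocalRing.ResidueField V) p] at h
    exact hlp ((Nat.prime_dvd_prime_iff_eq hp.out hl).1 h).symm
  have hN : 0 < orderOf c := hc.orderOf_pos
  have hm : 0 < orderOf cb := orderOf_pos cb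
  obtain ⟨t, ht⟩ : orderOf cb ∣ orderOf c := by
    rw [orderOf_dvd_iff_pow_eq_one]
    exact h1 _ (pow_orderOf_eq_one c)
  have ht0 : t ≠ 0 := by
    rintro rfl
    omega
  have hpt : t = p ^ t.primeFactorsList.length := by
    apply Nat.eq_prime_pow_of_unique_prime_dvd ht0
    intro l hl hlt
    by_contra hlp
    obtain ⟨s, rfl⟩ := hlt
    have hs0 : 0 < s := by
      rcases Nat.eq_zero_or_pos s with h | h
      · subst h; simp at ht0
      · exact h
    have h3 : c ^ (orderOf cb * s) = 1 := by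
      apply h2 _ l hl hlp
      · have : orderOf cb * s * l = orderOf c := by rw [ht]; ring
        rw [this, pow_orderOf_eq_one]
      · rw [pow_mul, pow_orderOf_eq_one, one_pow]
    have h4 := Nat.le_of_dvd (Nat.mul_pos hm hs0) (orderOf_dvd_of_pow_eq_one h3)
    rw [ht] at h4
    have h5 : orderOf cb * s * 1 < orderOf cb * s * l :=
      Nat.mul_lt_mul_of_pos_left hl.one_lt (Nat.mul_pos hm hs0)
    have h6 : orderOf cb * (l * s) = orderOf cb * s * l := by ring
    omega
  refine ⟨orderOf cb, t.primeFactorsList.length, ?_, hm, ?_⟩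
  · rw [← hpt]; exact ht
  · refine le_trans ?_ hcard
    exact Nat.le_of_dvd Nat.card_pos (orderOf_dvd_natCard cb)


end loc

/-- the local theorem with the polynomial bound -/
theorem locP (V M : Type) [CommRing V] [IsDomain V] [IsDiscreteValuationRing V]
    [Field M] [Algebra V M] [IsFractionRing V M] [Finite (IsLocalRing.ResidueField V)]
    (p : ℕ) [Fact p.Prime] [CharP (IsLocalRing.ResidueField V) p] (hp2 : p ≠ 2)
    (f : V[X]) (g : ℕ) (hf : f.Monic) (hd : f.natDegree = 2 * g + 1)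
    (hsep : (f.map (IsLocalRing.residue V)).Separable)
    [Fact (Odd (f.map (algebraMap V M)).natDegree)]
    (c : ClassGroup (Q M (f.map (algebraMap V M)))) (hc : IsOfFinOrder c) :
    ∃ m a : ℕ, orderOf c = m * p ^ a ∧ 1 ≤ m ∧
      m ≤ (Nat.card (IsLocalRing.ResidueField V)) ^ (3 * (g + 1)) := by
  have hsq := hsep.squarefree
  haveI h1 : IsDedekindDomain (Q M (f.map (algebraMap V M))) :=
    isDedekind (natDegree_M hd) (squarefree_generic M hf hsq) (two_ne_M (V := V) (p := p) M hp2)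
  haveI h2 : IsDedekindDomain
      (Q (IsLocalRing.ResidueField V) (f.map (IsLocalRing.residue V))) :=
    isDedekind (natDegree_k hf hd) hsq (two_ne_k (p := p) hp2)
  exact loc_auxP hf hd p c hc

/-- the local theorem at a prime of a number field -/
theorem glbP (E : Type) [Field E] [NumberField E] (w : HeightOneSpectrum (𝓞 E))
    (p : ℕ) [Fact p.Prime] (hp2 : p ≠ 2) (hpw : ((p : ℕ) : 𝓞 E) ∈ w.asIdeal)
    (F : (𝓞 E)[X]) (g : ℕ) (hmon : F.Monic) (hdeg : F.natDegree = 2 * g + 1)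
    (hsep : (F.map (Ideal.Quotient.mk w.asIdeal)).Separable)
    (G : E[X]) (hG : F.map (algebraMap (𝓞 E) E) = G) [Fact (Odd G.natDegree)]
    (c : ClassGroup (Q E G)) (hc : IsOfFinOrder c) :
    ∃ m a : ℕ, orderOf c = m * p ^ a ∧ 1 ≤ m ∧
      m ≤ (p ^ (Module.finrank ℚ E)) ^ (3 * (g + 1)) := by
  set V := HeightOneSpectrum.valuationSubringAtPrime E w with hV
  have hmax : w.asIdeal.IsMaximal := w.isMaximal
  have hloc : IsLocalization.AtPrime V w.asIdeal :=
    inferInstanceAs (IsLocalization w.asIdeal.primeCompl V)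
  have hdvr : IsDiscreteValuationRing V :=
    IsLocalization.AtPrime.isDiscreteValuationRing_of_dedekind_domain (𝓞 E) w.ne_bot V
  obtain ⟨hfin, hcard⟩ := UBT.H9.card_le E w p Fact.out hpw
  let e : (𝓞 E ⧸ w.asIdeal) ≃+* IsLocalRing.ResidueField V :=
    IsLocalization.AtPrime.equivQuotMaximalIdeal w.asIdeal V
  have hfin' : Finite (IsLocalRing.ResidueField V) := Finite.of_equiv _ e.toEquiv
  have hchar : CharP (IsLocalRing.ResidueField V) p := by
    have h0 : ((p : ℕ) : IsLocalRing.ResidueField V) = 0 := by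
      have h1 : ((p : ℕ) : 𝓞 E ⧸ w.asIdeal) = 0 := by
        have := Ideal.Quotient.eq_zero_iff_mem.2 hpw
        simpa using this
      have h2 := congrArg e h1
      simpa using h2
    have h3 := CharP.ringChar_of_prime_eq_zero (Fact.out : p.Prime) h0
    rw [← h3]
    exact ringChar.charP _
  set f : V[X] := F.map (algebraMap (𝓞 E) V) with hf
  have hfE : f.map (algebraMap V E) = G := by
    rw [hf, Polynomial.map_map, ← hG]
    rfl
  have hfmon : f.Monic := hmon.map _
  have hfdeg : f.natDegree = 2 * g + 1 := by rw [hf, hmon.natDegree_map, hdeg]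
  have hfsep : (f.map (IsLocalRing.residue V)).Separable := by
    have h1 : f.map (IsLocalRing.residue V) =
        (F.map (Ideal.Quotient.mk w.asIdeal)).map (e : (𝓞 E ⧸ w.asIdeal) →+* _) := by
      rw [hf, Polynomial.map_map, Polynomial.map_map]
      congr 1
    rw [h1]
    exact hsep.map
  subst hfE
  obtain ⟨m, k, h1, h2, h3⟩ := locP V E p hp2 f g hfmon hfdeg hfsep c hc
  refine ⟨m, k, h1, h2, h3.trans ?_⟩
  apply Nat.pow_le_pow_left
  rw [← Nat.card_congr e.toEquiv]
  exact hcard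

/-- good reduction at a prime of the base field bounds the torsion of all twists over all finite
extensions -/
theorem goodP (K : Type) [Field K] [NumberField K] (P : Ideal (𝓞 K)) [P.IsPrime] (p : ℕ)
    (hp : p.Prime) (hp2 : p ≠ 2) (hpP : ((p : ℕ) : 𝓞 K) ∈ P) (F : (𝓞 K)[X]) (g : ℕ)
    (hmon : F.Monic) (hdeg : F.natDegree = 2 * g + 1)
    (hsep : (F.map (Ideal.Quotient.mk P)).Separable)
    (L : Type) [Field L] [NumberField L] [Algebra K L] (e : L) (he : e ≠ 0)
    (Y : UBT.OddCurve L) (hY : Y.f = C e * (F.map (algebraMap (𝓞 K) K)).map (algebraMap K L))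
    (c : Y.Jac) (hc : IsOfFinOrder c) :
    ∃ m a : ℕ, orderOf c = m * p ^ a ∧ 1 ≤ m ∧
      m ≤ (p ^ (2 * (Module.finrank ℚ K * Module.finrank K L))) ^ (3 * (g + 1)) := by
  haveI : Fact p.Prime := ⟨hp⟩
  obtain ⟨E, _, _, _, s, hs, hdeg₂⟩ := UBT.ext2 L e
  let _ : Algebra K E := ((algebraMap L E).comp (algebraMap K L)).toAlgebra
  have _ : IsScalarTower K L E := IsScalarTower.of_algebraMap_eq fun _ => rfl
  have hs0 : s ≠ 0 := by
    rintro rfl
    have : algebraMap L E e = 0 := by rw [← hs]; ring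
    rw [FaithfulSMul.algebraMap_eq_zero_iff] at this
    exact he this
  set FE : E[X] := Y.f.map (algebraMap L E) with hFE
  set G : E[X] := C ((s ^ 2)⁻¹) * FE.comp (C 1 * X + C 0) with hG
  have hGF : G = (F.map (algebraMap (𝓞 K) K)).map (algebraMap K E) := by
    rw [hG, hFE, hY, C_1, one_mul, C_0, add_zero, comp_X, Polynomial.map_mul, map_C, ← hs,
      Polynomial.map_map (algebraMap K L) (algebraMap L E), ← mul_assoc, ← C_mul,
      inv_mul_cancel₀ (pow_ne_zero _ hs0), C_1, one_mul]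
    rfl
  have hGmon : G.Monic := by rw [hGF]; exact (hmon.map _).map _
  have hGdeg : G.natDegree = 2 * g + 1 := by
    rw [hGF, (hmon.map _).natDegree_map, hmon.natDegree_map, hdeg]
  -- the prime of `E`
  obtain ⟨⟨P', hPprime, hPv⟩⟩ := Ideal.nonempty_primesOver (S := 𝓞 E) P
  have hpP' : ((p : ℕ) : 𝓞 E) ∈ P' := by
    have h1 : ((p : ℕ) : 𝓞 K) ∈ P'.under (𝓞 K) := by rw [← hPv.over]; exact hpP
    have h2 : algebraMap (𝓞 K) (𝓞 E) ((p : ℕ) : 𝓞 K) ∈ P' := h1
    rwa [map_natCast] at h2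
  have hP0 : P' ≠ ⊥ := by
    rintro rfl
    rw [Ideal.mem_bot, Nat.cast_eq_zero] at hpP'
    exact hp.ne_zero hpP'
  let w : HeightOneSpectrum (𝓞 E) := ⟨P', hPprime, hP0⟩
  have hw : w.asIdeal.LiesOver P := hPv
  set F' : (𝓞 E)[X] := F.map (algebraMap (𝓞 K) (𝓞 E)) with hF'
  have hF'mon : F'.Monic := hmon.map _
  have hF'deg : F'.natDegree = 2 * g + 1 := by rw [hF', hmon.natDegree_map, hdeg]
  have hF'G : F'.map (algebraMap (𝓞 E) E) = G := by
    rw [hF', hGF, Polynomial.map_map, Polynomial.map_map]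
    congr 1
  have hF'sep : (F'.map (Ideal.Quotient.mk w.asIdeal)).Separable := by
    have h1 : F'.map (Ideal.Quotient.mk w.asIdeal) =
        (F.map (Ideal.Quotient.mk P)).map (algebraMap (𝓞 K ⧸ P) (𝓞 E ⧸ w.asIdeal)) := by
      rw [hF', Polynomial.map_map, Polynomial.map_map]
      congr 1
    rw [h1]
    exact hsep.map
  -- the class groups
  have _ : Fact (Odd G.natDegree) := ⟨by rw [hGdeg]; exact ⟨g, rfl⟩⟩
  have hdR : IsDedekindDomain (Q L Y.f) := H58Q.ded L Y.f two_ne_zero Y.sqfree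
  have hsq : Squarefree G := by
    have h1 : (Y.f.map (algebraMap L E)).Separable := by
      have h2 : Y.f.Separable := PerfectField.separable_iff_squarefree.2 Y.sqfree
      exact h2.map
    rw [hG, C_1, one_mul, C_0, add_zero, comp_X]
    have hu : IsUnit (C ((s ^ 2)⁻¹) : E[X]) :=
      isUnit_C.2 (isUnit_iff_ne_zero.2 (inv_ne_zero (pow_ne_zero _ hs0)))
    have h3 : Associated FE (C ((s ^ 2)⁻¹) * FE) := by
      rw [mul_comm]
      exact associated_mul_unit_right _ _ hu
    exact (Associated.squarefree_iff h3).1 h1.squarefree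
  have hdS : IsDedekindDomain (Q E G) := H58Q.ded E G two_ne_zero hsq
  obtain ⟨iso⟩ := Pool.Agent.UBT51.iso E FE 1 s 0 one_ne_zero hs0
  let ψ : Q L Y.f →+* Q E G := (iso : Q E FE →+* Q E G).comp (Q.map (algebraMap L E) Y.f)
  have hψinj : Function.Injective ψ := by
    intro a b hab
    exact Q.map_injective _ _ (algebraMap L E).injective (iso.injective hab)
  have hψ : ∀ I : Ideal (Q L Y.f), I ≠ ⊥ → (I.map ψ).IsPrincipal → I.IsPrincipal := by
    intro I hI h
    refine H76UBT.bc1 L E (algebraMap L E) Y.f Y.odd I hI ?_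
    have h1 : I.map ψ = (I.map (Q.map (algebraMap L E) Y.f)).map (iso : Q E FE →+* Q E G) := by
      rw [Ideal.map_map]
    have h2 : I.map (Q.map (algebraMap L E) Y.f) =
        (I.map ψ).map (iso.symm : Q E G →+* Q E FE) := by
      have hid : ((iso.symm : Q E G →+* Q E FE)).comp (iso : Q E FE →+* Q E G) =
          RingHom.id (Q E FE) := RingHom.ext fun x => iso.symm_apply_apply x
      rw [h1, Ideal.map_map, hid, Ideal.map_id]
    rw [h2]
    obtain ⟨z, hz⟩ := h.principal
    refine ⟨⟨iso.symm z, ?_⟩⟩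
    rw [hz, Ideal.submodule_span_eq, Ideal.map_span, Set.image_singleton, Ideal.submodule_span_eq]
    rfl
  obtain ⟨c', hc'⟩ := UBT.bc2 (Q L Y.f) (Q E G) ψ hψinj hψ c
  have hc'fin : IsOfFinOrder c' := by
    rw [← orderOf_pos_iff, hc']
    exact hc.orderOf_pos
  obtain ⟨m, a, hma, hm1, hm⟩ := glbP E w p hp2 hpP' F' g hF'mon hF'deg hF'sep G hF'G c' hc'fin
  refine ⟨m, a, by rw [← hc', hma], hm1, hm.trans ?_⟩
  have hrank : Module.finrank ℚ E ≤ 2 * (Module.finrank ℚ K * Module.finrank K L) := by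
    have e1 : Module.finrank ℚ E = Module.finrank ℚ L * Module.finrank L E :=
      (Module.finrank_mul_finrank ℚ L E).symm
    have e3 : Module.finrank ℚ L = Module.finrank ℚ K * Module.finrank K L :=
      (Module.finrank_mul_finrank ℚ K L).symm
    rw [e1, e3]
    calc Module.finrank ℚ K * Module.finrank K L * Module.finrank L E
        ≤ Module.finrank ℚ K * Module.finrank K L * 2 := by gcongr
      _ = 2 * (Module.finrank ℚ K * Module.finrank K L) := by ring
  have hp1 : 1 ≤ p := hp.one_lt.le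
  gcongr

/-- two good primes of different residue characteristics bound the torsion -/
theorem twoGood (K : Type) [Field K] [NumberField K] (P P' : Ideal (𝓞 K)) [P.IsPrime] [P'.IsPrime]
    (p p' : ℕ) (hp : p.Prime) (hp' : p'.Prime) (hpp : p ≠ p') (hp2 : p ≠ 2) (hp2' : p' ≠ 2)
    (hpP : ((p : ℕ) : 𝓞 K) ∈ P) (hpP' : ((p' : ℕ) : 𝓞 K) ∈ P') (F : (𝓞 K)[X]) (g : ℕ)
    (hmon : F.Monic) (hdeg : F.natDegree = 2 * g + 1)
    (hsep : (F.map (Ideal.Quotient.mk P)).Separable)
    (hsep' : (F.map (Ideal.Quotient.mk P')).Separable)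
    (L : Type) [Field L] [NumberField L] [Algebra K L] (e : L) (he : e ≠ 0)
    (Y : UBT.OddCurve L) (hY : Y.f = C e * (F.map (algebraMap (𝓞 K) K)).map (algebraMap K L))
    (c : Y.Jac) (hc : IsOfFinOrder c) (N : ℕ) (hpN : p ≤ N) (hpN' : p' ≤ N) :
    orderOf c ≤ (N ^ (12 * Module.finrank ℚ K * (g + 1))) ^ Module.finrank K L := by
  obtain ⟨m, a, h1, h2, h3⟩ := goodP K P p hp hp2 hpP F g hmon hdeg hsep L e he Y hY c hc
  obtain ⟨m', a', h1', h2', h3'⟩ := goodP K P' p' hp' hp2' hpP' F g hmon hdeg hsep' L e he Y hY c hc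
  have hdvd : p ^ a ∣ m' := by
    have h4 : p ^ a ∣ m' * p' ^ a' := by rw [← h1', h1]; exact dvd_mul_left _ _
    have hcop : Nat.Coprime (p ^ a) (p' ^ a') :=
      Nat.Coprime.pow _ _ ((Nat.coprime_primes hp hp').mpr hpp)
    exact hcop.dvd_of_dvd_mul_right h4
  have hle : p ^ a ≤ m' := Nat.le_of_dvd (by omega) hdvd
  rw [h1]
  refine (Nat.mul_le_mul h3 (hle.trans h3')).trans ?_
  have hN : 1 ≤ N := hp.one_lt.le.trans hpN
  calc (p ^ (2 * (Module.finrank ℚ K * Module.finrank K L))) ^ (3 * (g + 1)) *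
        (p' ^ (2 * (Module.finrank ℚ K * Module.finrank K L))) ^ (3 * (g + 1))
      ≤ (N ^ (2 * (Module.finrank ℚ K * Module.finrank K L))) ^ (3 * (g + 1)) *
        (N ^ (2 * (Module.finrank ℚ K * Module.finrank K L))) ^ (3 * (g + 1)) := by gcongr
    _ = (N ^ (12 * Module.finrank ℚ K * (g + 1))) ^ Module.finrank K L := by
        rw [← pow_mul, ← pow_mul, ← pow_add]
        congr 1
        ring

end H31M
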