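import Pool.Agent.Helper31_Mean.Form

/-!
A model with good reduction of a twist of `y² = F(x)` with a rational Weierstrass point.
-/

open Polynomial

namespace H31M

theorem separable_comp_lin {k : Type*} [Field k] {f : k[X]} (hf : f.Separable) {a : k}
    (ha : a ≠ 0) {c : k} (hc : c ≠ 0) : (C c * f.comp (C a * X)).Separable := by
  have h1 : (f.comp (C a * X)).Separable := by
    obtain ⟨p, q, h⟩ := hf
    have h2 := congrArg (fun t : k[X] => t.comp (C a * X)) h
    simp only [add_comp, mul_comp, one_comp] at h2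
    refine ⟨p.comp (C a * X), C a⁻¹ * q.comp (C a * X), ?_⟩
    rw [derivative_comp, ← h2]
    have h3 : derivative (C a * X : k[X]) = C a := by simp
    rw [h3]
    have h4 : C a⁻¹ * C a = (1 : k[X]) := by rw [← C_mul, inv_mul_cancel₀ ha, C_1]
    linear_combination (q.comp (C a * X) * (derivative f).comp (C a * X)) * h4
  have hu : IsUnit (C c : k[X]) := isUnit_C.2 (isUnit_iff_ne_zero.2 hc)
  obtain ⟨p, q, h⟩ := h1
  refine ⟨C c⁻¹ * p, C c⁻¹ * q, ?_⟩
  have h4 : C c⁻¹ * C c = (1 : k[X]) := by rw [← C_mul, inv_mul_cancel₀ hc, C_1]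
  rw [derivative_C_mul]
  linear_combination (p * f.comp (C a * X) + q * derivative (f.comp (C a * X))) * h4 + h

theorem exists_unimod {E : Type*} [Field E] (V : ValuationSubring E) (α β γ δ : E)
    (hdet : α * δ - β * γ ≠ 0) :
    ∃ (m₁ m₂ m₃ m₄ : V) (w u v : E), IsUnit (m₁ * m₄ - m₂ * m₃) ∧ w ≠ 0 ∧ u ≠ 0 ∧
      α = w * (m₁ * u) ∧ β = w * (m₁ * v + m₂) ∧ γ = w * (m₃ * u) ∧ δ = w * (m₃ * v + m₄) := by
  by_cases h : γ ≠ 0 ∧ α / γ ∈ V
  · obtain ⟨hγ, ht⟩ := h
    obtain ⟨t, htd⟩ : ∃ t, t = α / γ := ⟨_, rfl⟩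
    rw [← htd] at ht
    have hα : α = t * γ := by rw [htd, div_mul_cancel₀ _ hγ]
    obtain ⟨w, hwd⟩ : ∃ w, w = β - t * δ := ⟨_, rfl⟩
    have hw : w ≠ 0 := by
      intro h0
      apply hdet
      rw [hwd] at h0
      rw [hα]
      linear_combination (-γ) * h0
    have e1 : w * (γ / w) = γ := mul_div_cancel₀ γ hw
    have e2 : w * (δ / w) = δ := mul_div_cancel₀ δ hw
    refine ⟨⟨t, ht⟩, 1, 1, 0, w, γ / w, δ / w, ?_, hw, div_ne_zero hγ hw, ?_, ?_, ?_, ?_⟩
    · simp
    · change α = w * (t * (γ / w))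
      rw [hα]
      linear_combination (-t) * e1
    · change β = w * (t * (δ / w) + 1)
      linear_combination (-t) * e2 - hwd
    · change γ = w * (1 * (γ / w))
      linear_combination -e1
    · change δ = w * (1 * (δ / w) + 0)
      linear_combination -e2
  · have hα : α ≠ 0 := by
      rintro rfl
      apply h
      refine ⟨?_, by rw [zero_div]; exact V.zero_mem⟩
      rintro rfl
      apply hdet; ring
    have hr : γ / α ∈ V := by
      by_cases hγ : γ = 0
      · rw [hγ, zero_div]; exact V.zero_mem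
      · have h1 : α / γ ∉ V := fun h2 => h ⟨hγ, h2⟩
        have h2 := (V.mem_or_inv_mem (α / γ)).resolve_left h1
        rwa [inv_div] at h2
    obtain ⟨r, hrd⟩ : ∃ r, r = γ / α := ⟨_, rfl⟩
    rw [← hrd] at hr
    have hγ : γ = r * α := by rw [hrd, div_mul_cancel₀ _ hα]
    obtain ⟨w, hwd⟩ : ∃ w, w = δ - r * β := ⟨_, rfl⟩
    have hw : w ≠ 0 := by
      intro h0
      apply hdet
      rw [hwd] at h0
      rw [hγ]
      linear_combination α * h0
    have e1 : w * (α / w) = α := mul_div_cancel₀ α hw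
    have e2 : w * (β / w) = β := mul_div_cancel₀ β hw
    refine ⟨1, 0, ⟨r, hr⟩, 1, w, α / w, β / w, ?_, hw, div_ne_zero hα hw, ?_, ?_, ?_, ?_⟩
    · simp
    · change α = w * (1 * (α / w))
      linear_combination -e1
    · change β = w * (1 * (β / w) + 0)
      linear_combination -e2
    · change γ = w * (r * (α / w))
      rw [hγ]
      linear_combination (-r) * e1
    · change δ = w * (r * (β / w) + 1)
      linear_combination (-r) * e2 - hwd

theorem exists_model (E : Type*) [Field E] (V : ValuationSubring E) (g : ℕ) (F : V[X])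
    [PerfectField (IsLocalRing.ResidueField V)]
    (hgood : ¬ BadForm (2 * g + 2) (F.map (IsLocalRing.residue V)))
    (hF : F.natDegree ≤ 2 * g + 2)
    (α β γ δ σ : E) (hdet : α * δ - β * γ ≠ 0) (hσ : σ ≠ 0) (FE : E[X])
    (hFE : FE = C (σ ^ 2) * mob (2 * g + 2) (F.map (algebraMap V E)) α β γ δ)
    (hdeg : FE.natDegree = 2 * g + 1) :
    ∃ (u s v : E) (G₁ : V[X]), u ≠ 0 ∧ s ≠ 0 ∧ G₁.Monic ∧ G₁.natDegree = 2 * g + 1 ∧
      (G₁.map (IsLocalRing.residue V)).Separable ∧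
      G₁.map (algebraMap V E) = C ((s ^ 2)⁻¹) * FE.comp (C u * X + C v) := by
  obtain ⟨m₁, m₂, m₃, m₄, w, u, v, hm, hw, hu, h1, h2, h3, h4⟩ := exists_unimod V α β γ δ hdet
  set G : V[X] := mob (2 * g + 2) F m₁ m₂ m₃ m₄ with hG
  have hGE : G.map (algebraMap V E) =
      mob (2 * g + 2) (F.map (algebraMap V E)) m₁ m₂ m₃ m₄ := by
    rw [hG, mob_map]; rfl
  have hFG : FE = C (σ ^ 2 * w ^ (2 * g + 2)) * (G.map (algebraMap V E)).comp (C u * X + C v) := by
    rw [hFE, hGE, mob_comp, mob, C_mul, mul_assoc]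
    congr 1
    have e1 : C α * X + C β = C w * (C (m₁ : E) * (C u * X + C v) + C (m₂ : E)) := by
      rw [h1, h2]
      simp only [C_mul, C_add]; ring
    have e2 : C γ * X + C δ = C w * (C (m₃ : E) * (C u * X + C v) + C (m₄ : E)) := by
      rw [h3, h4]
      simp only [C_mul, C_add]; ring
    rw [e1, e2, hev_smul, C_pow]
  have hlin : (C u * X + C v : E[X]).natDegree = 1 := natDegree_linear hu
  have hGdeg : G.natDegree = 2 * g + 1 := by
    have e1 : (G.map (algebraMap V E)).natDegree = G.natDegree :=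
      natDegree_map_eq_of_injective (IsFractionRing.injective V E) _
    rw [← e1, ← hdeg, hFG, natDegree_C_mul (mul_ne_zero (pow_ne_zero _ hσ) (pow_ne_zero _ hw)),
      natDegree_comp, hlin, mul_one]
  have hres : G.map (IsLocalRing.residue V) = mob (2 * g + 2) (F.map (IsLocalRing.residue V))
      (IsLocalRing.residue V m₁) (IsLocalRing.residue V m₂) (IsLocalRing.residue V m₃)
      (IsLocalRing.residue V m₄) := by rw [hG, mob_map]
  have hdetk : IsLocalRing.residue V m₁ * IsLocalRing.residue V m₄ -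
      IsLocalRing.residue V m₂ * IsLocalRing.residue V m₃ ≠ 0 := by
    rw [← map_mul, ← map_mul, ← map_sub]
    exact (hm.map _).ne_zero
  have hnb : ¬ BadForm (2 * g + 2) (G.map (IsLocalRing.residue V)) := by
    intro hb
    rw [hres] at hb
    exact hgood (badForm_of_mob ((natDegree_map_le).trans hF) hdetk hb)
  obtain ⟨hsq, hdegk⟩ := good_dehom (by omega)
    ((natDegree_map_le).trans (by omega) : (G.map (IsLocalRing.residue V)).natDegree ≤
      2 * g + 2 - 1) hnb
  have hsepG : (G.map (IsLocalRing.residue V)).Separable :=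
    PerfectField.separable_iff_squarefree.2 hsq
  have hlu : IsUnit G.leadingCoeff := by
    have e1 : IsLocalRing.residue V G.leadingCoeff ≠ 0 := by
      have e2 : IsLocalRing.residue V G.leadingCoeff =
          (G.map (IsLocalRing.residue V)).coeff (2 * g + 1) := by
        rw [coeff_map, leadingCoeff, hGdeg]
      rw [e2]
      have e3 : (G.map (IsLocalRing.residue V)).coeff (2 * g + 1) =
          (G.map (IsLocalRing.residue V)).leadingCoeff := by
        rw [leadingCoeff, hdegk]; rfl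
      rw [e3, Ne, leadingCoeff_eq_zero]
      intro h0
      rw [h0] at hdegk
      simp at hdegk
    exact (IsLocalRing.residue_ne_zero_iff_isUnit _).1 e1
  obtain ⟨ℓ, hℓ⟩ := hlu
  set ℓ' : V := ((ℓ⁻¹ : Vˣ) : V) with hℓ'
  have hℓℓ' : (ℓ : V) * ℓ' = 1 := ℓ.mul_inv
  have hℓ'0 : ℓ' ≠ 0 := by
    intro h0
    rw [h0, mul_zero] at hℓℓ'
    exact zero_ne_one hℓℓ'
  have hℓE : ((ℓ : V) : E) * ((ℓ' : V) : E) = 1 := by
    have := congrArg (fun t : V => (t : E)) hℓℓ'
    simpa using this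
  have hℓE0 : ((ℓ : V) : E) ≠ 0 := left_ne_zero_of_mul_eq_one hℓE
  have hℓE0' : ((ℓ' : V) : E) ≠ 0 := right_ne_zero_of_mul_eq_one hℓE
  have hlinV : (C ℓ' * X : V[X]).natDegree = 1 := natDegree_C_mul_X _ hℓ'0
  set G₁ : V[X] := C ((ℓ : V) ^ (2 * g)) * G.comp (C ℓ' * X) with hG₁
  have hcdeg : (G.comp (C ℓ' * X)).natDegree = 2 * g + 1 := by
    rw [natDegree_comp, hlinV, mul_one, hGdeg]
  have hclc : (G.comp (C ℓ' * X)).leadingCoeff = ℓ * ℓ' ^ (2 * g + 1) := by
    rw [leadingCoeff_comp (by rw [hlinV]; exact one_ne_zero), hGdeg, leadingCoeff_C_mul_X, hℓ]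
  have hone : (ℓ : V) ^ (2 * g) * ((ℓ : V) * ℓ' ^ (2 * g + 1)) = 1 := by
    calc (ℓ : V) ^ (2 * g) * ((ℓ : V) * ℓ' ^ (2 * g + 1)) = ((ℓ : V) * ℓ') ^ (2 * g + 1) := by ring
      _ = 1 := by rw [hℓℓ', one_pow]
  have hG₁mon : G₁.Monic := by
    rw [Monic, hG₁, leadingCoeff_mul, leadingCoeff_C, hclc, hone]
  refine ⟨ℓ' / u, σ * w ^ (g + 1) * ℓ' ^ g, -v / u, G₁, div_ne_zero hℓE0' hu,
    mul_ne_zero (mul_ne_zero hσ (pow_ne_zero _ hw)) (pow_ne_zero _ hℓE0'), hG₁mon, ?_, ?_, ?_⟩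
  · rw [hG₁, natDegree_C_mul (pow_ne_zero _ ℓ.ne_zero), hcdeg]
  · have e1 : G₁.map (IsLocalRing.residue V) = C (IsLocalRing.residue V ((ℓ : V) ^ (2 * g))) *
        (G.map (IsLocalRing.residue V)).comp (C (IsLocalRing.residue V ℓ') * X) := by
      rw [hG₁, Polynomial.map_mul, map_C, map_comp, Polynomial.map_mul, map_C, map_X]
    rw [e1]
    apply separable_comp_lin hsepG
    · exact ((ℓ⁻¹).isUnit.map (IsLocalRing.residue V)).ne_zero
    · exact ((ℓ.isUnit.pow _).map (IsLocalRing.residue V)).ne_zero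
  · rw [hFG, mul_comp, C_comp, comp_assoc]
    have e1 : (C u * X + C v : E[X]).comp (C ((ℓ' : E) / u) * X + C (-v / u)) = C (ℓ' : E) * X := by
      simp only [add_comp, mul_comp, C_comp, X_comp]
      have a1 : C u * (C ((ℓ' : E) / u) * X + C (-v / u)) + C v =
          C (u * ((ℓ' : E) / u)) * X + C (u * (-v / u) + v) := by
        simp only [C_mul, C_add]; ring
      rw [a1, mul_div_cancel₀ _ hu, mul_div_cancel₀ _ hu]
      simp
    rw [e1, hG₁, Polynomial.map_mul, map_C, map_comp, Polynomial.map_mul, map_C, map_X,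
      ← mul_assoc, ← C_mul]
    congr 2
    change ((ℓ : V) : E) ^ (2 * g) = _
    have hl : ((ℓ : V) : E) = ((ℓ' : V) : E)⁻¹ := eq_inv_of_mul_eq_one_left hℓE
    have hA : σ ^ 2 * w ^ (2 * g + 2) ≠ 0 := mul_ne_zero (pow_ne_zero _ hσ) (pow_ne_zero _ hw)
    have hB : (σ * w ^ (g + 1) * (ℓ' : E) ^ g) ^ 2 =
        (σ ^ 2 * w ^ (2 * g + 2)) * (ℓ' : E) ^ (2 * g) := by ring
    rw [hl, hB, mul_inv, mul_comm (σ ^ 2 * w ^ (2 * g + 2))⁻¹, mul_assoc, inv_mul_cancel₀ hA,
      mul_one, inv_pow]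

end H31M
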