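import Pool.Agent.Helper31_Mean.LocP
import Pool.Agent.Helper31_Mean.Model

/-!
Good reduction of the binary form at a prime of the base field bounds the torsion of all odd
degree models of all twists over all finite extensions.
-/

open Polynomial NumberField IsDedekindDomain H58Q

namespace H31M

theorem goodQ (K : Type) [Field K] [NumberField K] (P : Ideal (𝓞 K)) [P.IsPrime] (p : ℕ)
    (hp : p.Prime) (hp2 : p ≠ 2) (hpP : ((p : ℕ) : 𝓞 K) ∈ P) (F : (𝓞 K)[X]) (g : ℕ)
    (hF : F.natDegree ≤ 2 * g + 2)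
    (hsep : (F.map (Ideal.Quotient.mk P)).Separable)
    (hdegP : 2 * g + 1 ≤ (F.map (Ideal.Quotient.mk P)).natDegree)
    (L : Type) [Field L] [NumberField L] [Algebra K L] (e : L) (he : e ≠ 0)
    (α β γ δ : L) (hdet : α * δ - β * γ ≠ 0)
    (Y : UBT.OddCurve L) (hY : Y.f = C e *
      mob (2 * g + 2) ((F.map (algebraMap (𝓞 K) K)).map (algebraMap K L)) α β γ δ)
    (hYd : Y.f.natDegree = 2 * g + 1)
    (c : Y.Jac) (hc : IsOfFinOrder c) :
    ∃ m a : ℕ, orderOf c = m * p ^ a ∧ 1 ≤ m ∧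
      m ≤ (p ^ (2 * (Module.finrank ℚ K * Module.finrank K L))) ^ (3 * (g + 1)) := by
  have : Fact p.Prime := ⟨hp⟩
  obtain ⟨E, _, _, _, σ, hσ, hdeg₂⟩ := UBT.ext2 L e
  let _ : Algebra K E := ((algebraMap L E).comp (algebraMap K L)).toAlgebra
  have _ : IsScalarTower K L E := IsScalarTower.of_algebraMap_eq fun _ => rfl
  have hσ0 : σ ≠ 0 := by
    rintro rfl
    have : algebraMap L E e = 0 := by rw [← hσ]; ring
    rw [FaithfulSMul.algebraMap_eq_zero_iff] at this
    exact he this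
  -- the prime of `E`
  obtain ⟨⟨P', hPprime, hPv⟩⟩ := Ideal.nonempty_primesOver (S := 𝓞 E) P
  have hpP' : ((p : ℕ) : 𝓞 E) ∈ P' := by
    have h1 : ((p : ℕ) : 𝓞 K) ∈ P'.under (𝓞 K) := by rw [← hPv.over]; exact hpP
    have h2 : algebraMap (𝓞 K) (𝓞 E) ((p : ℕ) : 𝓞 K) ∈ P' := h1
    rwa [map_natCast] at h2
  have hP0 : P' ≠ ⊥ := by
    rintro rfl
    rw [Ideal.mem_bot, Nat.cast_eq_zero] at hpP'
    exact hp.ne_zero hpP'
  obtain ⟨w, hwP⟩ : ∃ w : HeightOneSpectrum (𝓞 E), w.asIdeal = P' := ⟨⟨P', hPprime, hP0⟩, rfl⟩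
  subst hwP
  have hw : w.asIdeal.LiesOver P := hPv
  set V := HeightOneSpectrum.valuationSubringAtPrime E w with hV
  have hmax : w.asIdeal.IsMaximal := w.isMaximal
  have hloc : IsLocalization.AtPrime V w.asIdeal :=
    inferInstanceAs (IsLocalization w.asIdeal.primeCompl V)
  have hdvr : IsDiscreteValuationRing V :=
    IsLocalization.AtPrime.isDiscreteValuationRing_of_dedekind_domain (𝓞 E) w.ne_bot V
  obtain ⟨hfin, hcard⟩ := UBT.H9.card_le E w p Fact.out hpP'
  let ee : (𝓞 E ⧸ w.asIdeal) ≃+* IsLocalRing.ResidueField V :=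
    IsLocalization.AtPrime.equivQuotMaximalIdeal w.asIdeal V
  have hfin' : Finite (IsLocalRing.ResidueField V) := Finite.of_equiv _ ee.toEquiv
  have hchar : CharP (IsLocalRing.ResidueField V) p := by
    have h0 : ((p : ℕ) : IsLocalRing.ResidueField V) = 0 := by
      have h1 : ((p : ℕ) : 𝓞 E ⧸ w.asIdeal) = 0 := by
        have := Ideal.Quotient.eq_zero_iff_mem.2 hpP'
        simpa using this
      have h2 := congrArg ee h1
      simpa using h2
    have h3 := CharP.ringChar_of_prime_eq_zero (Fact.out : p.Prime) h0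
    rw [← h3]
    exact ringChar.charP _
  set FV : V[X] := (F.map (algebraMap (𝓞 K) (𝓞 E))).map (algebraMap (𝓞 E) V) with hFV
  have hFVres : FV.map (IsLocalRing.residue V) = (F.map (Ideal.Quotient.mk P)).map
      ((ee : (𝓞 E ⧸ w.asIdeal) →+* _).comp (algebraMap (𝓞 K ⧸ P) (𝓞 E ⧸ w.asIdeal))) := by
    rw [hFV, Polynomial.map_map, Polynomial.map_map, Polynomial.map_map]
    congr 1
  have hPne : P ≠ ⊥ := by
    rintro rfl
    rw [Ideal.mem_bot, Nat.cast_eq_zero] at hpP
    exact hp.ne_zero hpP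
  have hPmax : P.IsMaximal := Ideal.IsPrime.isMaximal inferInstance hPne
  have hgood : ¬ BadForm (2 * g + 2) (FV.map (IsLocalRing.residue V)) := by
    apply not_bad_of (by omega)
    · rw [hFVres]
      exact (hsep.map).squarefree
    · rw [hFVres]
      let _ : Field (𝓞 K ⧸ P) := Ideal.Quotient.field P
      rw [natDegree_map_eq_of_injective (RingHom.injective _)]
      exact hdegP
  have hFVd : FV.natDegree ≤ 2 * g + 2 := (natDegree_map_le.trans natDegree_map_le).trans hF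
  have hFVE : FV.map (algebraMap V E) =
      ((F.map (algebraMap (𝓞 K) K)).map (algebraMap K L)).map (algebraMap L E) := by
    rw [hFV, Polynomial.map_map, Polynomial.map_map, Polynomial.map_map, Polynomial.map_map]
    congr 1
  set FE : E[X] := Y.f.map (algebraMap L E) with hFE
  have hFE' : FE = C (σ ^ 2) * mob (2 * g + 2) (FV.map (algebraMap V E)) (algebraMap L E α)
      (algebraMap L E β) (algebraMap L E γ) (algebraMap L E δ) := by
    rw [hFE, hY, Polynomial.map_mul, map_C, mob_map, hFVE, hσ]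
  have hdetE : algebraMap L E α * algebraMap L E δ - algebraMap L E β * algebraMap L E γ ≠ 0 := by
    rw [← map_mul, ← map_mul, ← map_sub, Ne, FaithfulSMul.algebraMap_eq_zero_iff]
    exact hdet
  have hFEd : FE.natDegree = 2 * g + 1 := by
    rw [hFE, natDegree_map, hYd]
  obtain ⟨u, s, v, G₁, hu, hs, hG₁mon, hG₁deg, hG₁sep, hG₁E⟩ := exists_model E V g FV hgood hFVd
    _ _ _ _ σ hdetE hσ0 FE hFE' hFEd
  obtain ⟨G, hGdef⟩ : ∃ G : E[X], G = C ((s ^ 2)⁻¹) * FE.comp (C u * X + C v) := ⟨_, rfl⟩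
  have hG1 : G₁.map (algebraMap V E) = G := by rw [hG₁E, hGdef]
  have hGdeg : G.natDegree = 2 * g + 1 := by rw [← hG1, hG₁mon.natDegree_map, hG₁deg]
  -- the class groups
  have _ : Fact (Odd G.natDegree) := ⟨by rw [hGdeg]; exact ⟨g, rfl⟩⟩
  have hdR : IsDedekindDomain (Q L Y.f) := H58Q.ded L Y.f two_ne_zero Y.sqfree
  have hsq : Squarefree G := by
    rw [← hG1]
    exact squarefree_generic E hG₁mon hG₁sep.squarefree
  have hdS : IsDedekindDomain (Q E G) := H58Q.ded E G two_ne_zero hsq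
  obtain ⟨iso'⟩ := Pool.Agent.UBT51.iso E FE u s v hu hs
  rw [← hGdef] at iso'
  obtain ⟨iso, hiso⟩ : ∃ iso : Q E FE ≃+* Q E G, iso = iso' := ⟨_, rfl⟩
  let ψ : Q L Y.f →+* Q E G := (iso : Q E FE →+* Q E G).comp (Q.map (algebraMap L E) Y.f)
  have hψinj : Function.Injective ψ := by
    intro a b hab
    exact Q.map_injective _ _ (algebraMap L E).injective (iso.injective hab)
  have hψ : ∀ I : Ideal (Q L Y.f), I ≠ ⊥ → (I.map ψ).IsPrincipal → I.IsPrincipal := by
    intro I hI h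
    refine H76UBT.bc1 L E (algebraMap L E) Y.f Y.odd I hI ?_
    have h1 : I.map ψ = (I.map (Q.map (algebraMap L E) Y.f)).map (iso : Q E FE →+* Q E G) := by
      rw [Ideal.map_map]
    have h2 : I.map (Q.map (algebraMap L E) Y.f) =
        (I.map ψ).map (iso.symm : Q E G →+* Q E FE) := by
      have hid : ((iso.symm : Q E G →+* Q E FE)).comp (iso : Q E FE →+* Q E G) =
          RingHom.id (Q E FE) := RingHom.ext fun x => iso.symm_apply_apply x
      rw [h1, Ideal.map_map, hid, Ideal.map_id]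
    rw [h2]
    obtain ⟨z, hz⟩ := h.principal
    refine ⟨⟨iso.symm z, ?_⟩⟩
    rw [hz, Ideal.submodule_span_eq, Ideal.map_span, Set.image_singleton, Ideal.submodule_span_eq]
    rfl
  obtain ⟨c', hc'⟩ := UBT.bc2 (Q L Y.f) (Q E G) ψ hψinj hψ c
  have hc'fin : IsOfFinOrder c' := by
    rw [← orderOf_pos_iff, hc']
    exact hc.orderOf_pos
  obtain ⟨m, a, hma, hm1, hm⟩ : ∃ m a : ℕ, orderOf c' = m * p ^ a ∧ 1 ≤ m ∧
      m ≤ (Nat.card (IsLocalRing.ResidueField V)) ^ (3 * (g + 1)) := by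
    clear hψ hψinj ψ hc' hiso iso iso' hdS hsq
    subst hG1
    exact locP V E p hp2 G₁ g hG₁mon hG₁deg hG₁sep c' hc'fin
  refine ⟨m, a, by rw [← hc', hma], hm1, hm.trans ?_⟩
  have hcard' : Nat.card (IsLocalRing.ResidueField V) ≤ p ^ Module.finrank ℚ E := by
    rw [← Nat.card_congr ee.toEquiv]
    exact hcard
  have hrank : Module.finrank ℚ E ≤ 2 * (Module.finrank ℚ K * Module.finrank K L) := by
    have e1 : Module.finrank ℚ E = Module.finrank ℚ L * Module.finrank L E :=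
      (Module.finrank_mul_finrank ℚ L E).symm
    have e3 : Module.finrank ℚ L = Module.finrank ℚ K * Module.finrank K L :=
      (Module.finrank_mul_finrank ℚ K L).symm
    rw [e1, e3]
    calc Module.finrank ℚ K * Module.finrank K L * Module.finrank L E
        ≤ Module.finrank ℚ K * Module.finrank K L * 2 := by gcongr
      _ = 2 * (Module.finrank ℚ K * Module.finrank K L) := by ring
  have hp1 : 1 ≤ p := hp.one_lt.le
  calc (Nat.card (IsLocalRing.ResidueField V)) ^ (3 * (g + 1))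
      ≤ (p ^ Module.finrank ℚ E) ^ (3 * (g + 1)) := by gcongr
    _ ≤ _ := by gcongr

/-- two good primes of different residue characteristics bound the torsion -/
theorem twoGoodQ (K : Type) [Field K] [NumberField K] (P P' : Ideal (𝓞 K)) [P.IsPrime]
    [P'.IsPrime] (p p' : ℕ) (hp : p.Prime) (hp' : p'.Prime) (hpp : p ≠ p') (hp2 : p ≠ 2)
    (hp2' : p' ≠ 2) (hpP : ((p : ℕ) : 𝓞 K) ∈ P) (hpP' : ((p' : ℕ) : 𝓞 K) ∈ P') (F : (𝓞 K)[X])
    (g : ℕ) (hF : F.natDegree ≤ 2 * g + 2)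
    (hsep : (F.map (Ideal.Quotient.mk P)).Separable)
    (hdeg : 2 * g + 1 ≤ (F.map (Ideal.Quotient.mk P)).natDegree)
    (hsep' : (F.map (Ideal.Quotient.mk P')).Separable)
    (hdeg' : 2 * g + 1 ≤ (F.map (Ideal.Quotient.mk P')).natDegree)
    (L : Type) [Field L] [NumberField L] [Algebra K L] (e : L) (he : e ≠ 0)
    (α β γ δ : L) (hdet : α * δ - β * γ ≠ 0)
    (Y : UBT.OddCurve L) (hY : Y.f = C e *
      mob (2 * g + 2) ((F.map (algebraMap (𝓞 K) K)).map (algebraMap K L)) α β γ δ)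
    (hYd : Y.f.natDegree = 2 * g + 1)
    (c : Y.Jac) (hc : IsOfFinOrder c) (N : ℕ) (hpN : p ≤ N) (hpN' : p' ≤ N) :
    orderOf c ≤ (N ^ (12 * Module.finrank ℚ K * (g + 1))) ^ Module.finrank K L := by
  obtain ⟨m, a, h1, h2, h3⟩ := goodQ K P p hp hp2 hpP F g hF hsep hdeg L e he α β γ δ hdet Y hY
    hYd c hc
  obtain ⟨m', a', h1', h2', h3'⟩ := goodQ K P' p' hp' hp2' hpP' F g hF hsep' hdeg' L e he α β γ δ
    hdet Y hY hYd c hc
  have hdvd : p ^ a ∣ m' := by
    have h4 : p ^ a ∣ m' * p' ^ a' := by rw [← h1', h1]; exact dvd_mul_left _ _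
    have hcop : Nat.Coprime (p ^ a) (p' ^ a') :=
      Nat.Coprime.pow _ _ ((Nat.coprime_primes hp hp').mpr hpp)
    exact hcop.dvd_of_dvd_mul_right h4
  have hle : p ^ a ≤ m' := Nat.le_of_dvd (by omega) hdvd
  rw [h1]
  refine (Nat.mul_le_mul h3 (hle.trans h3')).trans ?_
  have hN : 1 ≤ N := hp.one_lt.le.trans hpN
  calc (p ^ (2 * (Module.finrank ℚ K * Module.finrank K L))) ^ (3 * (g + 1)) *
        (p' ^ (2 * (Module.finrank ℚ K * Module.finrank K L))) ^ (3 * (g + 1))
      ≤ (N ^ (2 * (Module.finrank ℚ K * Module.finrank K L))) ^ (3 * (g + 1)) *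
        (N ^ (2 * (Module.finrank ℚ K * Module.finrank K L))) ^ (3 * (g + 1)) := by gcongr
    _ = (N ^ (12 * Module.finrank ℚ K * (g + 1))) ^ Module.finrank K L := by
        rw [← pow_mul, ← pow_mul, ← pow_add]
        congr 1
        ring

end H31M
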