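import Pool.Agent.Helper31_Mean.Num

/-!
Products over the primes `7 ≤ p ≤ Q`.
-/

open Real Chebyshev

namespace H31M

/-- the primes `p` with `7 ≤ p ≤ Q` -/
def OP7 (Q : ℕ) : Finset ℕ := (OP Q).filter (fun p => 7 ≤ p)

theorem mem_OP7 {Q p : ℕ} : p ∈ OP7 Q ↔ p ≤ Q ∧ p.Prime ∧ 7 ≤ p := by
  rw [OP7, Finset.mem_filter, mem_OP]
  constructor
  · rintro ⟨⟨h1, h2, -⟩, h3⟩
    exact ⟨h1, h2, h3⟩
  · rintro ⟨h1, h2, h3⟩
    exact ⟨⟨h1, h2, by omega⟩, h3⟩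

theorem OP7_mono {Q Q' : ℕ} (h : Q ≤ Q') : OP7 Q ⊆ OP7 Q' := by
  intro p hp
  rw [mem_OP7] at hp ⊢
  exact ⟨hp.1.trans h, hp.2⟩

theorem prod_OP7_le (Q : ℕ) : ∏ p ∈ OP7 Q, p ≤ 4 ^ Q := by
  refine le_trans ?_ (prod_OP_le Q)
  apply Finset.prod_le_prod_of_subset_of_one_le' (Finset.filter_subset _ _)
  intro p hp _
  exact (mem_OP.1 hp).2.1.one_lt.le

theorem OP_le_OP7 (Q : ℕ) : ∏ p ∈ OP Q, p ≤ 15 * ∏ p ∈ OP7 Q, p := by
  have h1 : OP Q ⊆ {3, 5} ∪ OP7 Q := by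
    intro p hp
    rw [Finset.mem_union]
    by_cases h : 7 ≤ p
    · right
      exact Finset.mem_filter.2 ⟨hp, h⟩
    · left
      rw [mem_OP] at hp
      have hp3 := hp.2.1.two_le
      have h7 : p < 7 := by omega
      have hpp := hp.2.1
      interval_cases p
      · exact absurd rfl hp.2.2
      · simp
      · exact absurd hpp (by norm_num)
      · simp
      · exact absurd hpp (by norm_num)
  have hdisj : Disjoint ({3, 5} : Finset ℕ) (OP7 Q) := by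
    rw [Finset.disjoint_left]
    intro p hp hp'
    have := (mem_OP7.1 hp').2.2
    simp only [Finset.mem_insert, Finset.mem_singleton] at hp
    omega
  have h2 : ∏ p ∈ ({3, 5} ∪ OP7 Q : Finset ℕ), p = 15 * ∏ p ∈ OP7 Q, p := by
    rw [Finset.prod_union hdisj]
    congr 1
  rw [← h2]
  apply Finset.prod_le_prod_of_subset_of_one_le' h1
  intro p hp _
  rcases Finset.mem_union.1 hp with h | h
  · simp only [Finset.mem_insert, Finset.mem_singleton] at h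
    omega
  · exact (mem_OP7.1 h).2.1.one_lt.le

theorem sqrt_prod_le7 (S : Finset ℕ) (hS : ∀ p ∈ S, 7 ≤ p) :
    √((∏ p ∈ S, p : ℕ) : ℝ) ≤ ∏ p ∈ S, (((p : ℝ) - 1) / 2) := by
  rw [Nat.cast_prod, Real.sqrt_prod S (fun i _ => Nat.cast_nonneg i)]
  apply Finset.prod_le_prod (fun _ _ => sqrt_nonneg _)
  intro p hp
  have h3 : (7 : ℝ) ≤ p := by exact_mod_cast hS p hp
  rw [sqrt_le_left (by linarith)]
  nlinarith

/-- lower bound for `∏ (p - 1)/2` over all primes `7 ≤ p ≤ Q` but at most one -/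
theorem erase_prod_lower7 : ∃ C1 : ℝ, 0 < C1 ∧ ∀ Q p0 : ℕ, p0 ≤ Q →
    exp ((Q : ℝ) / 4) ≤ C1 * (Q + 1) * ∏ p ∈ (OP7 Q).erase p0, (((p : ℝ) - 1) / 2) := by
  obtain ⟨C0, hC0, hθ⟩ := theta_lower
  refine ⟨6 * exp (C0 / 2), by positivity, ?_⟩
  intro Q p0 hp0
  have h1 : exp (θ Q / 2) ≤ √30 * √((∏ p ∈ OP7 Q, p : ℕ) : ℝ) := by
    have h2 : exp (θ Q / 2) = √(exp (θ Q)) := by
      rw [Real.sqrt_eq_rpow, ← Real.exp_mul]; ring_nf
    rw [h2, ← Real.sqrt_mul (by norm_num)]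
    apply sqrt_le_sqrt
    have h3 := exp_theta_le Q
    have h4 : ((∏ p ∈ OP Q, p : ℕ) : ℝ) ≤ 15 * ((∏ p ∈ OP7 Q, p : ℕ) : ℝ) := by
      exact_mod_cast OP_le_OP7 Q
    linarith
  have h2 : √(30 : ℝ) ≤ 6 := by
    rw [sqrt_le_left (by norm_num)]; norm_num
  have h3 : √((∏ p ∈ OP7 Q, p : ℕ) : ℝ) ≤
      (Q + 1) * ∏ p ∈ (OP7 Q).erase p0, (((p : ℝ) - 1) / 2) := by
    refine (sqrt_prod_le7 (OP7 Q) (fun p hp => (mem_OP7.1 hp).2.2)).trans ?_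
    have hnn : 0 ≤ ∏ p ∈ (OP7 Q).erase p0, (((p : ℝ) - 1) / 2) := by
      apply Finset.prod_nonneg
      intro p hp
      have : (7 : ℝ) ≤ p := by exact_mod_cast (mem_OP7.1 (Finset.mem_of_mem_erase hp)).2.2
      linarith
    by_cases h : p0 ∈ OP7 Q
    · rw [← Finset.mul_prod_erase _ _ h]
      apply mul_le_mul_of_nonneg_right _ hnn
      have : (p0 : ℝ) ≤ Q := by exact_mod_cast hp0
      have h0 : (0 : ℝ) ≤ p0 := Nat.cast_nonneg _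
      linarith
    · rw [Finset.erase_eq_of_notMem h] at hnn ⊢
      have : (0 : ℝ) ≤ Q := Nat.cast_nonneg Q
      nlinarith
  have h4 := hθ Q
  have h5 : (Q : ℝ) / 4 ≤ C0 / 2 + θ Q / 2 := by linarith
  have hnn : 0 ≤ √((∏ p ∈ OP7 Q, p : ℕ) : ℝ) := sqrt_nonneg _
  calc exp ((Q : ℝ) / 4) ≤ exp (C0 / 2 + θ Q / 2) := exp_le_exp.2 h5
    _ = exp (C0 / 2) * exp (θ Q / 2) := exp_add _ _
    _ ≤ exp (C0 / 2) * (6 * ((Q + 1) * ∏ p ∈ (OP7 Q).erase p0, (((p : ℝ) - 1) / 2))) := by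
        apply mul_le_mul_of_nonneg_left _ (exp_pos _).le
        refine h1.trans ?_
        calc √30 * √((∏ p ∈ OP7 Q, p : ℕ) : ℝ) ≤ 6 * √((∏ p ∈ OP7 Q, p : ℕ) : ℝ) :=
              mul_le_mul_of_nonneg_right h2 hnn
          _ ≤ _ := mul_le_mul_of_nonneg_left h3 (by norm_num)
    _ = 6 * exp (C0 / 2) * (Q + 1) * ∏ p ∈ (OP7 Q).erase p0, (((p : ℝ) - 1) / 2) := by ring

/-- lower bound for `∏ p` over all primes `7 ≤ p ≤ Q` but at most one -/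
theorem erase_prod_lower7' : ∃ C1 : ℝ, 0 < C1 ∧ ∀ Q p0 : ℕ, p0 ≤ Q →
    exp ((Q : ℝ) / 4) ≤ C1 * (Q + 1) * ((∏ p ∈ (OP7 Q).erase p0, p : ℕ) : ℝ) := by
  obtain ⟨C1, hC1, h⟩ := erase_prod_lower7
  refine ⟨C1, hC1, fun Q p0 hp0 => (h Q p0 hp0).trans ?_⟩
  apply mul_le_mul_of_nonneg_left _ (by positivity)
  rw [Nat.cast_prod]
  apply Finset.prod_le_prod
  · intro p hp
    have : (7 : ℝ) ≤ p := by exact_mod_cast (mem_OP7.1 (Finset.mem_of_mem_erase hp)).2.2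
    linarith
  · intro p _
    have h0 : (0 : ℝ) ≤ p := Nat.cast_nonneg _
    linarith

end H31M
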