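import Pool.Agent.Helper31_Mean.DensF
import Pool.Agent.Helper31_Mean.BoxW
import Pool.Agent.Helper31_Mean.Red

/-!
Counting the binary forms of the box with bad reduction at all primes of a finite set.
-/

open Polynomial NumberField

namespace H31M

section

variable {K : Type} [Field K] [NumberField K] {ι : Type} [Fintype ι]
  (b : Module.Basis ι ℤ (𝓞 K))

/-- coordinates with bad reduction -/
def OmF (P : Ideal (𝓞 K)) (p : ℕ) [CharP (𝓞 K ⧸ P) p] (d : ℕ) :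
    Set (Fin (d + 1) × ι → ZMod p) :=
  red b P p (d + 1) ⁻¹' {z | ¬ GoodForm d (form z)}

theorem card_OmF (P : Ideal (𝓞 K)) [hP : P.IsPrime] (p : ℕ) (hp : p.Prime)
    (hpP : ((p : ℕ) : 𝓞 K) ∈ P) [CharP (𝓞 K ⧸ P) p] (d : ℕ) (hd : 2 ≤ d) :
    Nat.card (OmF b P p d) * (p - 1) ≤ 2 * p ^ Fintype.card (Fin (d + 1) × ι) := by
  classical
  have hPne : P ≠ ⊥ := by
    rintro rfl
    rw [Ideal.mem_bot, Nat.cast_eq_zero] at hpP
    exact hp.ne_zero hpP
  have hPmax : P.IsMaximal := hP.isMaximal hPne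
  letI : Field (𝓞 K ⧸ P) := Ideal.Quotient.field P
  have hfin : Finite (𝓞 K ⧸ P) := by
    have h1 : Ideal.absNorm P ≠ 0 := by
      rw [Ne, Ideal.absNorm_eq_zero_iff]
      exact hPne
    exact Ideal.absNorm_ne_zero_iff _ |>.1 h1
  haveI : NeZero p := ⟨hp.ne_zero⟩
  letI : Fintype (𝓞 K ⧸ P) := Fintype.ofFinite _
  set q := Fintype.card (𝓞 K ⧸ P) with hq
  have hpq : p ≤ q := by
    have h1 : p ∣ q := by
      rw [hq]
      exact (CharP.cast_eq_zero_iff (𝓞 K ⧸ P) p _).1 (FiniteField.cast_card_eq_zero _)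
    exact Nat.le_of_dvd Fintype.card_pos h1
  have h1 := fiber_count (red b P p (d + 1)) (red_surjective b P p (d + 1))
    {z | ¬ GoodForm d (form z)}
  have h2 := card_bad (k := 𝓞 K ⧸ P) hd
  have hA : Nat.card (Fin (d + 1) × ι → ZMod p) = p ^ Fintype.card (Fin (d + 1) × ι) := by
    rw [Nat.card_eq_fintype_card, Fintype.card_fun, ZMod.card]
  have hB : Nat.card (Fin (d + 1) → 𝓞 K ⧸ P) = q ^ (d + 1) := by
    rw [Nat.card_eq_fintype_card, Fintype.card_fun, Fintype.card_fin]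
  rw [hA, hB] at h1
  change Nat.card (OmF b P p d) * q ^ (d + 1) ≤
    Nat.card {z : Fin (d + 1) → 𝓞 K ⧸ P // ¬ GoodForm d (form z)} *
    p ^ Fintype.card (Fin (d + 1) × ι) at h1
  have hq0 : 0 < q ^ (d + 1) := pow_pos Fintype.card_pos _
  have h3 : Nat.card (OmF b P p d) * (q - 1) ≤ 2 * p ^ Fintype.card (Fin (d + 1) × ι) := by
    apply Nat.le_of_mul_le_mul_left _ hq0
    calc q ^ (d + 1) * (Nat.card (OmF b P p d) * (q - 1))
        = (Nat.card (OmF b P p d) * q ^ (d + 1)) * (q - 1) := by ring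
      _ ≤ (Nat.card {z : Fin (d + 1) → 𝓞 K ⧸ P // ¬ GoodForm d (form z)} *
          p ^ Fintype.card (Fin (d + 1) × ι)) * (q - 1) := Nat.mul_le_mul_right _ h1
      _ = (Nat.card {z : Fin (d + 1) → 𝓞 K ⧸ P // ¬ GoodForm d (form z)} * (q - 1)) *
          p ^ Fintype.card (Fin (d + 1) × ι) := by ring
      _ ≤ (2 * q ^ (d + 1)) * p ^ Fintype.card (Fin (d + 1) × ι) := Nat.mul_le_mul_right _ h2
      _ = q ^ (d + 1) * (2 * p ^ Fintype.card (Fin (d + 1) × ι)) := by ring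
  exact (Nat.mul_le_mul_left _ (Nat.sub_le_sub_right hpq 1)).trans h3

/-- The number of binary forms of the box which have bad reduction at all primes of `S`. -/
theorem bad_countF (P : ℕ → Ideal (𝓞 K)) (hP : ∀ p, p.Prime → (P p).IsPrime ∧
      ((p : ℕ) : 𝓞 K) ∈ P p) (d : ℕ) (hd : 2 ≤ d) (S : Finset ℕ) (hS : ∀ p ∈ S, p.Prime) (H : ℕ)
    (hM : ∏ p ∈ S, p ≤ 2 * H + 1) :
    ({a : Fin (d + 1) → 𝓞 K | (∀ i j, |b.repr (a i) j| ≤ H) ∧
        ∀ p ∈ S, ¬ GoodForm d ((form a).map (Ideal.Quotient.mk (P p)))}.ncard : ℝ) *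
      ∏ p ∈ S, (((p : ℝ) - 1) / 2) ≤ (3 * (2 * H + 1)) ^ Fintype.card (Fin (d + 1) × ι) := by
  classical
  have hch : ∀ p ∈ S, CharP (𝓞 K ⧸ P p) p := fun p hp => by
    haveI := (hP p (hS p hp)).1
    exact charP_quot (P p) p (hS p hp) (hP p (hS p hp)).2
  have hw : ∀ p ∈ S, (0 : ℝ) ≤ ((p : ℝ) - 1) / 2 := by
    intro p hp
    have : (1 : ℝ) ≤ p := by exact_mod_cast (hS p hp).one_lt.le
    linarith
  let Ω : (p : ℕ) → Set (Fin (d + 1) × ι → ZMod p) := fun p =>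
    if hp : p ∈ S then (haveI := hch p hp; OmF b (P p) p d) else ∅
  have hΩ : ∀ p ∈ S, (Nat.card (Ω p) : ℝ) * (((p : ℝ) - 1) / 2) ≤
      (p : ℝ) ^ Fintype.card (Fin (d + 1) × ι) := by
    intro p hp
    haveI := hch p hp
    haveI := (hP p (hS p hp)).1
    have h1 : Ω p = OmF b (P p) p d := by simp only [Ω, dif_pos hp]
    rw [h1]
    have h2 := card_OmF b (P p) p (hS p hp) (hP p (hS p hp)).2 d hd
    have h3 : ((p : ℝ) - 1) = ((p - 1 : ℕ) : ℝ) := by
      rw [Nat.cast_sub (hS p hp).one_lt.le]; simp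
    have h4 : (Nat.card (OmF b (P p) p d) : ℝ) * ((p - 1 : ℕ) : ℝ) ≤
        2 * (p : ℝ) ^ Fintype.card (Fin (d + 1) × ι) := by exact_mod_cast h2
    rw [h3]
    linarith
  have hmain := box_countW (J := Fin (d + 1) × ι) S hS Ω (fun p => ((p : ℝ) - 1) / 2) hw hΩ H hM
  refine le_trans ?_ hmain
  apply mul_le_mul_of_nonneg_right _ (Finset.prod_nonneg hw)
  let co : (Fin (d + 1) → 𝓞 K) → (Fin (d + 1) × ι → ℤ) := fun a x => b.repr (a x.1) x.2
  have hco : Function.Injective co := by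
    intro a a' h
    funext i
    apply b.repr.injective
    ext j
    exact congrFun h (i, j)
  have hfin : {x : Fin (d + 1) × ι → ℤ | (∀ j, |x j| ≤ H) ∧
      ∀ p ∈ S, (fun j => (x j : ZMod p)) ∈ Ω p}.Finite := by
    apply Set.Finite.subset (Set.Finite.pi' (fun _ : Fin (d + 1) × ι => Set.finite_Icc (-(H : ℤ)) H))
    intro x hx j
    exact Set.mem_Icc.2 (abs_le.1 (hx.1 j))
  have h1 := Set.ncard_le_ncard_of_injOn
    (s := {a : Fin (d + 1) → 𝓞 K | (∀ i j, |b.repr (a i) j| ≤ H) ∧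
      ∀ p ∈ S, ¬ GoodForm d ((form a).map (Ideal.Quotient.mk (P p)))})
    (t := {x : Fin (d + 1) × ι → ℤ | (∀ j, |x j| ≤ H) ∧ ∀ p ∈ S, (fun j => (x j : ZMod p)) ∈ Ω p})
    co (by
      rintro a ⟨ha1, ha2⟩
      refine ⟨fun x => ha1 x.1 x.2, ?_⟩
      intro p hp
      haveI := hch p hp
      have h1 : Ω p = OmF b (P p) p d := by simp only [Ω, dif_pos hp]
      rw [h1]
      change ¬ GoodForm d (form (red b (P p) p (d + 1)
        (fun x : Fin (d + 1) × ι => ((b.repr (a x.1) x.2 : ℤ) : ZMod p))))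
      have h2 : red b (P p) p (d + 1)
          (fun x : Fin (d + 1) × ι => ((b.repr (a x.1) x.2 : ℤ) : ZMod p)) =
          fun i => Ideal.Quotient.mk (P p) (a i) :=
        funext fun i => red_cast b (P p) p (d + 1) a i
      rw [h2, ← form_map]
      exact ha2 p hp) hco.injOn hfin
  exact_mod_cast h1

end

end H31M
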