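import Pool.Agent.Helper31_Mean.Dens

/-!
The resultant of `f` and `f'`: few primes of bad reduction.
-/

open Polynomial NumberField

namespace H31M

/-- the resultant of `F` and its derivative, `F` of degree `n` -/
noncomputable def rs {R : Type*} [CommRing R] (n : ℕ) (F : R[X]) : R :=
  resultant F (derivative F) n (n - 1)

theorem rs_map {R S : Type*} [CommRing R] [CommRing S] (n : ℕ) (F : R[X]) (φ : R →+* S) :
    rs n (F.map φ) = φ (rs n F) := by
  rw [rs, rs, derivative_map, resultant_map_map]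

theorem rs_eq_zero {k : Type*} [Field k] {n : ℕ} (hn : n ≠ 0) {F : k[X]} (hF : F.natDegree ≤ n)
    (hs : ¬ F.Separable) : rs n F = 0 := by
  by_contra h
  apply hs
  obtain ⟨p, q, -, -, h1⟩ := exists_mul_add_mul_eq_C_resultant (m := n) (n := n - 1) F
    (derivative F) hF ((natDegree_derivative_le F).trans (Nat.sub_le_sub_right hF 1)) (Or.inl hn)
  change F * p + derivative F * q = C (rs n F) at h1
  refine ⟨C (rs n F)⁻¹ * p, C (rs n F)⁻¹ * q, ?_⟩
  calc C (rs n F)⁻¹ * p * F + C (rs n F)⁻¹ * q * derivative F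
      = C (rs n F)⁻¹ * (F * p + derivative F * q) := by ring
    _ = 1 := by rw [h1, ← C_mul, inv_mul_cancel₀ h, C_1]

theorem rs_ne_zero {k : Type*} [Field k] [CharZero k] {n : ℕ} (hn : n ≠ 0) {F : k[X]}
    (hF : F.natDegree = n) (hs : F.Separable) : rs n F ≠ 0 := by
  have h1 : (derivative F).natDegree = n - 1 := by
    rw [natDegree_derivative, hF]
  rw [rs]
  have h2 := resultant_eq_zero_iff (f := F) (g := derivative F)
  rw [hF, h1] at h2
  intro h
  exact (h2.1 h).2 hs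

theorem dvd_norm {K : Type*} [Field K] [NumberField K] (P : Ideal (𝓞 K)) [hP : P.IsPrime] (p : ℕ)
    (hp : p.Prime) (hpP : ((p : ℕ) : 𝓞 K) ∈ P) (x : 𝓞 K) (hx : x ∈ P) :
    p ∣ (Algebra.norm ℤ x).natAbs := by
  rw [← Ideal.absNorm_span_singleton]
  have h1 : Ideal.absNorm P ∣ Ideal.absNorm (Ideal.span {x}) := by
    apply Ideal.absNorm_dvd_absNorm_of_le
    rw [Ideal.span_singleton_le_iff_mem]
    exact hx
  refine dvd_trans ?_ h1
  by_contra h
  have h2 : IsCoprime ((p : ℕ) : ℤ) ((Ideal.absNorm P : ℕ) : ℤ) :=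
    Nat.isCoprime_iff_coprime.2 ((Nat.Prime.coprime_iff_not_dvd hp).2 h)
  obtain ⟨u, v, huv⟩ := h2
  apply hP.ne_top
  rw [Ideal.eq_top_iff_one]
  have h3 := congrArg (fun t : ℤ => (t : 𝓞 K)) huv
  simp only [Int.cast_add, Int.cast_mul, Int.cast_natCast, Int.cast_one] at h3
  rw [← h3]
  exact P.add_mem (P.mul_mem_left _ hpP) (P.mul_mem_left _ (Ideal.absNorm_mem P))

theorem norm_le {K : Type*} [Field K] [NumberField K] (x : 𝓞 K) (B : ℝ)
    (hB : ∀ σ : K →ₐ[ℚ] ℂ, ‖σ (x : K)‖ ≤ B) :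
    ((Algebra.norm ℤ x).natAbs : ℝ) ≤ B ^ Module.finrank ℚ K := by
  have h1 : ((Algebra.norm ℤ x : ℤ) : ℚ) = Algebra.norm ℚ (x : K) := by
    rw [← Algebra.coe_norm_int]
  have h2 : algebraMap ℚ ℂ (Algebra.norm ℚ (x : K)) = ∏ σ : K →ₐ[ℚ] ℂ, σ (x : K) :=
    Algebra.norm_eq_prod_embeddings ℚ ℂ (x : K)
  have h3 : ((Algebra.norm ℤ x).natAbs : ℝ) = ‖∏ σ : K →ₐ[ℚ] ℂ, σ (x : K)‖ := by
    rw [← h2, ← h1]
    simp [Nat.cast_natAbs]
  rw [h3, norm_prod]
  have hcard : Fintype.card (K →ₐ[ℚ] ℂ) = Module.finrank ℚ K := AlgHom.card ℚ K ℂ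
  calc ∏ σ : K →ₐ[ℚ] ℂ, ‖σ (x : K)‖ ≤ ∏ _σ : K →ₐ[ℚ] ℂ, B :=
        Finset.prod_le_prod (fun _ _ => norm_nonneg _) (fun σ _ => hB σ)
    _ = B ^ Module.finrank ℚ K := by rw [Finset.prod_const, Finset.card_univ, hcard]

theorem coeff_poly_norm {n : ℕ} (c : Fin n → ℂ) (B : ℝ) (hB1 : 1 ≤ B) (hB : ∀ i, ‖c i‖ ≤ B)
    (i : ℕ) : ‖(poly c).coeff i‖ ≤ B := by
  rcases lt_trichotomy i n with h | h | h
  · have := poly_coeff c ⟨i, h⟩
    simp only at this
    rw [this]
    exact hB _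
  · have h1 : (poly c).coeff n = 1 := by
      have := (poly_monic c).coeff_natDegree
      rwa [poly_natDegree] at this
    rw [h, h1, norm_one]
    exact hB1
  · rw [coeff_eq_zero_of_natDegree_lt (by rw [poly_natDegree]; exact h), norm_zero]
    linarith

theorem rs_norm {n : ℕ} (c : Fin n → ℂ) (B : ℝ) (hB1 : 1 ≤ B) (hB : ∀ i, ‖c i‖ ≤ B) :
    ‖rs n (poly c)‖ ≤ ((n + (n - 1)).factorial : ℝ) * ((n + 1) * B) ^ (n + (n - 1)) := by
  have hB0 : 0 ≤ B := by linarith
  have hn0 : (0 : ℝ) ≤ n := Nat.cast_nonneg n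
  have hbig : B ≤ (n + 1) * B := by nlinarith
  have hc := coeff_poly_norm c B hB1 hB
  have hd : ∀ i, ‖(derivative (poly c)).coeff i‖ ≤ (n + 1) * B := by
    intro i
    by_cases hi : i + 1 ≤ n
    · rw [coeff_derivative, norm_mul]
      have h1 : ‖((i : ℂ) + 1)‖ ≤ n + 1 := by
        have h2 : ((i : ℂ) + 1) = ((i + 1 : ℕ) : ℂ) := by push_cast; ring
        rw [h2, Complex.norm_natCast]
        have : ((i + 1 : ℕ) : ℝ) ≤ n := by exact_mod_cast hi
        linarith
      calc ‖(poly c).coeff (i + 1)‖ * ‖((i : ℂ) + 1)‖ ≤ B * (n + 1) :=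
            mul_le_mul (hc _) h1 (norm_nonneg _) hB0
        _ = (n + 1) * B := by ring
    · rw [coeff_derivative, coeff_eq_zero_of_natDegree_lt (by rw [poly_natDegree]; omega),
        zero_mul, norm_zero]
      positivity
  have h := Matrix.det_le (A := sylvester (poly c) (derivative (poly c)) n (n - 1))
    (abv := IsAbsoluteValue.toAbsoluteValue (norm : ℂ → ℝ)) (x := (n + 1) * B) (by
      intro i j
      change ‖sylvester (poly c) (derivative (poly c)) n (n - 1) i j‖ ≤ (n + 1) * B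
      simp only [sylvester, Matrix.of_apply]
      induction j using Fin.addCases with
      | left j =>
        simp only [Fin.addCases_left]
        split_ifs
        · exact hd _
        · rw [norm_zero]; positivity
      | right j =>
        simp only [Fin.addCases_right]
        split_ifs
        · exact (hc _).trans hbig
        · rw [norm_zero]; positivity)
  rw [Fintype.card_fin, nsmul_eq_mul] at h
  exact h

/-- The product of the primes of bad reduction is polynomially bounded. -/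
theorem bad_primes (K : Type) [Field K] [NumberField K] {ι : Type} [Fintype ι]
    (b : Module.Basis ι ℤ (𝓞 K)) (n : ℕ) (hn : n ≠ 0) :
    ∃ (A : ℝ) (R : ℕ), 1 ≤ A ∧ ∀ (H : ℕ) (a : Fin n → 𝓞 K),
      (∀ i j, |b.repr (a i) j| ≤ H) → ((poly a).map (algebraMap (𝓞 K) K)).Separable →
      ∀ (S : Finset ℕ), (∀ p ∈ S, p.Prime ∧ ∃ P : Ideal (𝓞 K), P.IsPrime ∧
        ((p : ℕ) : 𝓞 K) ∈ P ∧ ¬ ((poly a).map (Ideal.Quotient.mk P)).Separable) →
      ((∏ p ∈ S, p : ℕ) : ℝ) ≤ (A * (H + 1)) ^ R := by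
  classical
  set m := Module.finrank ℚ K with hm
  set D : ℝ := 1 + ∑ σ : K →ₐ[ℚ] ℂ, ∑ j, ‖σ (b j : K)‖ with hD
  have hD1 : 1 ≤ D := by
    rw [hD]
    have : 0 ≤ ∑ σ : K →ₐ[ℚ] ℂ, ∑ j, ‖σ (b j : K)‖ := by positivity
    linarith
  have hDσ : ∀ σ : K →ₐ[ℚ] ℂ, ∑ j, ‖σ (b j : K)‖ ≤ D := by
    intro σ
    have h1 : ∑ j, ‖σ (b j : K)‖ ≤ ∑ σ : K →ₐ[ℚ] ℂ, ∑ j, ‖σ (b j : K)‖ :=
      Finset.single_le_sum (f := fun σ : K →ₐ[ℚ] ℂ => ∑ j, ‖σ (b j : K)‖)
        (fun _ _ => by positivity) (Finset.mem_univ σ)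
    rw [hD]; linarith
  set r := n + (n - 1) with hr
  have hr1 : 1 ≤ r := by omega
  refine ⟨(r.factorial : ℝ) * ((n + 1) * D), r * m, ?_, ?_⟩
  · have h1 : (1 : ℝ) ≤ r.factorial := by exact_mod_cast Nat.one_le_iff_ne_zero.2 (Nat.factorial_ne_zero r)
    have h2 : (1 : ℝ) ≤ (n + 1) * D := by
      have : (0 : ℝ) ≤ n := Nat.cast_nonneg n
      nlinarith
    nlinarith
  intro H a hbox hsep S hS
  set x : 𝓞 K := rs n (poly a) with hx
  have hx0 : x ≠ 0 := by
    intro h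
    apply rs_ne_zero hn (k := K) (F := (poly a).map (algebraMap (𝓞 K) K)) _ hsep
    · rw [rs_map, ← hx, h, map_zero]
    · rw [(poly_monic a).natDegree_map, poly_natDegree]
  have hdvd : ∏ p ∈ S, p ∣ (Algebra.norm ℤ x).natAbs := by
    apply Finset.prod_primes_dvd
    · intro p hp; exact (hS p hp).1.prime
    · intro p hp
      obtain ⟨hpp, P, hP, hpP, hns⟩ := hS p hp
      apply dvd_norm P p hpp hpP
      have hPmax : P.IsMaximal := by
        apply hP.isMaximal
        rintro rfl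
        rw [Ideal.mem_bot, Nat.cast_eq_zero] at hpP
        exact hpp.ne_zero hpP
      letI : Field (𝓞 K ⧸ P) := Ideal.Quotient.field P
      have h1 := rs_eq_zero hn (k := 𝓞 K ⧸ P) (F := (poly a).map (Ideal.Quotient.mk P))
        (by rw [(poly_monic a).natDegree_map, poly_natDegree]) hns
      rw [rs_map] at h1
      exact Ideal.Quotient.eq_zero_iff_mem.1 h1
  have hN0 : (Algebra.norm ℤ x).natAbs ≠ 0 := by
    rw [Int.natAbs_ne_zero, Algebra.norm_ne_zero_iff]
    exact hx0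
  have hle : ∏ p ∈ S, p ≤ (Algebra.norm ℤ x).natAbs := Nat.le_of_dvd (Nat.pos_of_ne_zero hN0) hdvd
  have hB : ∀ σ : K →ₐ[ℚ] ℂ, ‖σ (x : K)‖ ≤ (r.factorial : ℝ) * ((n + 1) * (D * (H + 1))) ^ r := by
    intro σ
    have h1 : σ (x : K) = rs n (poly (fun i => σ (a i : K))) := by
      have h2 : poly (fun i => σ (a i : K)) =
          (poly a).map ((σ : K →+* ℂ).comp (algebraMap (𝓞 K) K)) := by
        rw [poly_map]; rfl
      rw [h2, rs_map]
      rfl
    rw [h1]
    have hDH : 1 ≤ D * (H + 1) := by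
      have : (0 : ℝ) ≤ H := Nat.cast_nonneg H
      nlinarith
    apply rs_norm _ _ hDH
    intro i
    have h3 : (a i : K) = ∑ j, ((b.repr (a i) j : ℤ) : K) * (b j : K) := by
      conv_lhs => rw [← b.sum_repr (a i)]
      change algebraMap (𝓞 K) K (∑ j, b.repr (a i) j • b j) = _
      rw [map_sum]
      apply Finset.sum_congr rfl
      intro j _
      rw [zsmul_eq_mul, map_mul, map_intCast]
    rw [h3, map_sum]
    calc ‖∑ j, σ (((b.repr (a i) j : ℤ) : K) * (b j : K))‖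
        ≤ ∑ j, ‖σ (((b.repr (a i) j : ℤ) : K) * (b j : K))‖ := norm_sum_le _ _
      _ ≤ ∑ j, H * ‖σ (b j : K)‖ := by
          apply Finset.sum_le_sum
          intro j _
          rw [map_mul, map_intCast, norm_mul, Complex.norm_intCast]
          apply mul_le_mul_of_nonneg_right _ (norm_nonneg _)
          exact_mod_cast hbox i j
      _ = H * ∑ j, ‖σ (b j : K)‖ := by rw [Finset.mul_sum]
      _ ≤ D * (H + 1) := by
          have h4 := hDσ σ
          have h5 : (0 : ℝ) ≤ H := Nat.cast_nonneg H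
          nlinarith
  have hfin := norm_le x _ hB
  calc ((∏ p ∈ S, p : ℕ) : ℝ) ≤ ((Algebra.norm ℤ x).natAbs : ℝ) := by exact_mod_cast hle
    _ ≤ ((r.factorial : ℝ) * ((n + 1) * (D * (H + 1))) ^ r) ^ m := hfin
    _ ≤ (((r.factorial : ℝ) * ((n + 1) * D) * (H + 1)) ^ r) ^ m := by
        have h1 : (1 : ℝ) ≤ r.factorial := by
          exact_mod_cast Nat.one_le_iff_ne_zero.2 (Nat.factorial_ne_zero r)
        apply pow_le_pow_left₀ (by positivity)
        have h2 : (r.factorial : ℝ) ≤ (r.factorial : ℝ) ^ r := le_self_pow₀ h1 (by omega)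
        calc (r.factorial : ℝ) * ((n + 1) * (D * (H + 1))) ^ r
            ≤ (r.factorial : ℝ) ^ r * ((n + 1) * (D * (H + 1))) ^ r :=
              mul_le_mul_of_nonneg_right h2 (by positivity)
          _ = ((r.factorial : ℝ) * ((n + 1) * D) * (H + 1)) ^ r := by
              rw [← mul_pow]; ring_nf
    _ = ((r.factorial : ℝ) * ((n + 1) * D) * (H + 1)) ^ (r * m) := by rw [pow_mul]

end H31M
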