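import Pool.Agent.Helper31_Mean.DensF
import Pool.Agent.Helper31_Mean.Res

/-!
The resultant of the two partial derivatives of a binary form: few primes of bad reduction.
-/

open Polynomial NumberField

namespace H31M

/-- the other partial derivative of the binary form of degree `d` -/
noncomputable def der2 {R : Type*} [CommRing R] (d : ℕ) (F : R[X]) : R[X] :=
  C (d : R) * F - X * derivative F

/-- the resultant of the partial derivatives of the binary form of degree `d` -/
noncomputable def rsF {R : Type*} [CommRing R] (d : ℕ) (F : R[X]) : R :=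
  resultant (derivative F) (der2 d F) (d - 1) (d - 1)

theorem rsF_map {R S : Type*} [CommRing R] [CommRing S] (d : ℕ) (F : R[X]) (φ : R →+* S) :
    rsF d (F.map φ) = φ (rsF d F) := by
  have h1 : der2 d (F.map φ) = (der2 d F).map φ := by
    simp [der2]
  rw [rsF, rsF, h1, derivative_map, resultant_map_map]

theorem der2_natDegree_le {R : Type*} [CommRing R] {d : ℕ} {F : R[X]} (hF : F.natDegree ≤ d) :
    (der2 d F).natDegree ≤ F.natDegree := by
  rw [der2]
  refine (natDegree_sub_le _ _).trans (max_le (natDegree_C_mul_le _ _) ?_)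
  by_cases h : F.natDegree = 0
  · rw [natDegree_eq_zero] at h
    obtain ⟨c, rfl⟩ := h
    simp
  · refine natDegree_mul_le.trans ?_
    have h1 := natDegree_derivative_le F
    have h2 := natDegree_X_le (R := R)
    omega

theorem der2_coeff {R : Type*} [CommRing R] (d : ℕ) (F : R[X]) (i : ℕ) :
    (der2 d F).coeff i = ((d : R) - (i : R)) * F.coeff i := by
  rw [der2, coeff_sub, coeff_C_mul]
  cases i with
  | zero => simp
  | succ i => rw [coeff_X_mul, coeff_derivative]; push_cast; ring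

theorem der2_natDegree_le' {R : Type*} [CommRing R] {d : ℕ} {F : R[X]} (hF : F.natDegree ≤ d) :
    (der2 d F).natDegree ≤ d - 1 := by
  rw [natDegree_le_iff_coeff_eq_zero]
  intro i hi
  rw [der2_coeff]
  by_cases h : i = d
  · rw [h, sub_self, zero_mul]
  · rw [coeff_eq_zero_of_natDegree_lt (by omega), mul_zero]

theorem rsF_eq_zero {k : Type*} [Field k] {d : ℕ} (hd : 2 ≤ d) {F : k[X]} (hF : F.natDegree ≤ d)
    (hs : ¬ GoodForm d F) : rsF d F = 0 := by
  by_cases hdeg : d - 1 ≤ F.natDegree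
  · by_contra h
    apply hs
    refine ⟨?_, hdeg⟩
    obtain ⟨p, q, -, -, h1⟩ := exists_mul_add_mul_eq_C_resultant (m := d - 1) (n := d - 1)
      (derivative F) (der2 d F) ((natDegree_derivative_le F).trans (Nat.sub_le_sub_right hF 1))
      (der2_natDegree_le' hF) (Or.inl (by omega))
    change derivative F * p + der2 d F * q = C (rsF d F) at h1
    refine ⟨C (rsF d F)⁻¹ * (C (d : k) * q), C (rsF d F)⁻¹ * (p - X * q), ?_⟩
    calc C (rsF d F)⁻¹ * (C (d : k) * q) * F + C (rsF d F)⁻¹ * (p - X * q) * derivative F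
        = C (rsF d F)⁻¹ * (derivative F * p + der2 d F * q) := by rw [der2]; ring
      _ = 1 := by rw [h1, ← C_mul, inv_mul_cancel₀ h, C_1]
  · rw [rsF]
    apply resultant_eq_zero_of_lt_lt
    · have := natDegree_derivative_le F
      omega
    · have := der2_natDegree_le hF
      omega

theorem res_right {k : Type*} [Field k] {f g : k[X]} {n : ℕ} (hf : f ≠ 0)
    (hg : g.natDegree ≤ n) (hr : resultant f g ≠ 0) : resultant f g f.natDegree n ≠ 0 := by
  obtain ⟨e, he⟩ : ∃ e, n = g.natDegree + e := ⟨n - g.natDegree, by omega⟩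
  rw [he, resultant_add_right_deg _ _ _ _ _ le_rfl]
  exact mul_ne_zero (pow_ne_zero _ (leadingCoeff_ne_zero.2 hf)) hr

theorem res_left {k : Type*} [Field k] {f g : k[X]} {m : ℕ} (hg : g ≠ 0)
    (hf : f.natDegree ≤ m) (hr : resultant f g ≠ 0) : resultant f g m g.natDegree ≠ 0 := by
  obtain ⟨e, he⟩ : ∃ e, m = f.natDegree + e := ⟨m - f.natDegree, by omega⟩
  rw [he, resultant_add_left_deg _ _ _ _ _ le_rfl]
  exact mul_ne_zero (mul_ne_zero (pow_ne_zero _ (neg_ne_zero.2 one_ne_zero))
    (pow_ne_zero _ (leadingCoeff_ne_zero.2 hg))) hr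

theorem rsF_ne_zero {k : Type*} [Field k] [CharZero k] {d : ℕ} (hd : 2 ≤ d) {F : k[X]}
    (hF : F.natDegree ≤ d) (hs : GoodForm d F) : rsF d F ≠ 0 := by
  obtain ⟨hsep, hdeg⟩ := hs
  have hd0 : (d : k) ≠ 0 := by exact_mod_cast (by omega : d ≠ 0)
  have hcop : IsCoprime (derivative F) (der2 d F) := by
    obtain ⟨a, b, hab⟩ := hsep
    refine ⟨C (d : k)⁻¹ * a * X + b, C (d : k)⁻¹ * a, ?_⟩
    have h1 : C (d : k)⁻¹ * C (d : k) = (1 : k[X]) := by
      rw [← C_mul, inv_mul_cancel₀ hd0, C_1]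
    rw [der2]
    linear_combination hab + (a * F) * h1
  have hr : resultant (derivative F) (der2 d F) ≠ 0 := fun h => (resultant_eq_zero_iff.1 h).2 hcop
  have hF0 : F ≠ 0 := by
    rintro rfl
    simp at hdeg
    omega
  by_cases h : F.natDegree = d
  · have h1 : (derivative F).natDegree = d - 1 := by rw [natDegree_derivative, h]
    have h0 : derivative F ≠ 0 := by
      intro h2
      rw [h2, natDegree_zero] at h1
      omega
    have h2 := res_right h0 (der2_natDegree_le' hF) hr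
    rwa [h1] at h2
  · have hFd : F.natDegree = d - 1 := by omega
    have h1 : (der2 d F).coeff (d - 1) ≠ 0 := by
      rw [der2_coeff]
      have h2 : (d : k) - ((d - 1 : ℕ) : k) = 1 := by
        rw [Nat.cast_sub (by omega)]; simp
      rw [h2, one_mul]
      have h3 : F.coeff (d - 1) = F.leadingCoeff := by rw [leadingCoeff, hFd]
      rw [h3]
      exact leadingCoeff_ne_zero.2 hF0
    have h2 : (der2 d F).natDegree = d - 1 :=
      le_antisymm (der2_natDegree_le' hF) (le_natDegree_of_ne_zero h1)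
    have h0 : der2 d F ≠ 0 := by
      intro h3
      rw [h3, coeff_zero] at h1
      exact h1 rfl
    have h3 := res_left h0 (m := d - 1)
      ((natDegree_derivative_le F).trans (Nat.sub_le_sub_right hF 1)) hr
    rwa [h2] at h3

theorem coeff_form_norm {d : ℕ} (c : Fin (d + 1) → ℂ) (B : ℝ) (hB0 : 0 ≤ B)
    (hB : ∀ i, ‖c i‖ ≤ B) (i : ℕ) : ‖(form c).coeff i‖ ≤ B := by
  by_cases h : i < d + 1
  · have := form_coeff c ⟨i, h⟩
    simp only at this
    rw [this]
    exact hB _
  · rw [coeff_eq_zero_of_natDegree_lt (lt_of_le_of_lt (form_natDegree c) (by omega)), norm_zero]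
    exact hB0

theorem rsF_norm {d : ℕ} (c : Fin (d + 1) → ℂ) (B : ℝ) (hB0 : 0 ≤ B) (hB : ∀ i, ‖c i‖ ≤ B) :
    ‖rsF d (form c)‖ ≤ (((d - 1) + (d - 1)).factorial : ℝ) * ((d + 1) * B) ^ ((d - 1) + (d - 1)) := by
  have hn0 : (0 : ℝ) ≤ d := Nat.cast_nonneg d
  have hc := coeff_form_norm c B hB0 hB
  have hd1 : ∀ i, ‖(derivative (form c)).coeff i‖ ≤ (d + 1) * B := by
    intro i
    by_cases hi : i + 1 ≤ d
    · rw [coeff_derivative, norm_mul]
      have h1 : ‖((i : ℂ) + 1)‖ ≤ d + 1 := by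
        have h2 : ((i : ℂ) + 1) = ((i + 1 : ℕ) : ℂ) := by push_cast; ring
        rw [h2, Complex.norm_natCast]
        have : ((i + 1 : ℕ) : ℝ) ≤ d := by exact_mod_cast hi
        linarith
      calc ‖(form c).coeff (i + 1)‖ * ‖((i : ℂ) + 1)‖ ≤ B * (d + 1) :=
            mul_le_mul (hc _) h1 (norm_nonneg _) hB0
        _ = (d + 1) * B := by ring
    · rw [coeff_derivative, coeff_eq_zero_of_natDegree_lt
        (lt_of_le_of_lt (form_natDegree c) (by omega)), zero_mul, norm_zero]
      positivity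
  have hd2 : ∀ i, ‖(der2 d (form c)).coeff i‖ ≤ (d + 1) * B := by
    intro i
    rw [der2_coeff]
    by_cases hi : i ≤ d
    · rw [norm_mul]
      have h1 : ‖((d : ℂ) - i)‖ ≤ d + 1 := by
        have h2 : ((d : ℂ) - i) = ((d - i : ℕ) : ℂ) := by rw [Nat.cast_sub hi]
        rw [h2, Complex.norm_natCast]
        have : ((d - i : ℕ) : ℝ) ≤ d := by exact_mod_cast Nat.sub_le d i
        linarith
      exact mul_le_mul h1 (hc _) (norm_nonneg _) (by positivity)
    · rw [coeff_eq_zero_of_natDegree_lt (lt_of_le_of_lt (form_natDegree c) (by omega)), mul_zero,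
        norm_zero]
      positivity
  have h := Matrix.det_le (A := sylvester (derivative (form c)) (der2 d (form c)) (d - 1) (d - 1))
    (abv := IsAbsoluteValue.toAbsoluteValue (norm : ℂ → ℝ)) (x := (d + 1) * B) (by
      intro i j
      change ‖sylvester (derivative (form c)) (der2 d (form c)) (d - 1) (d - 1) i j‖ ≤ (d + 1) * B
      simp only [sylvester, Matrix.of_apply]
      induction j using Fin.addCases with
      | left j =>
        simp only [Fin.addCases_left]
        split_ifs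
        · exact hd2 _
        · rw [norm_zero]; positivity
      | right j =>
        simp only [Fin.addCases_right]
        split_ifs
        · exact hd1 _
        · rw [norm_zero]; positivity)
  rw [Fintype.card_fin, nsmul_eq_mul] at h
  exact h

/-- The product of the primes of bad reduction is polynomially bounded. -/
theorem bad_primesF (K : Type) [Field K] [NumberField K] {ι : Type} [Fintype ι]
    (b : Module.Basis ι ℤ (𝓞 K)) (d : ℕ) (hd : 2 ≤ d) :
    ∃ (A : ℝ) (R : ℕ), 1 ≤ A ∧ ∀ (H : ℕ) (a : Fin (d + 1) → 𝓞 K),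
      (∀ i j, |b.repr (a i) j| ≤ H) → GoodForm d ((form a).map (algebraMap (𝓞 K) K)) →
      ∀ (S : Finset ℕ), (∀ p ∈ S, p.Prime ∧ ∃ P : Ideal (𝓞 K), P.IsPrime ∧
        ((p : ℕ) : 𝓞 K) ∈ P ∧ ¬ GoodForm d ((form a).map (Ideal.Quotient.mk P))) →
      ((∏ p ∈ S, p : ℕ) : ℝ) ≤ (A * (H + 1)) ^ R := by
  classical
  set m := Module.finrank ℚ K with hm
  set D : ℝ := 1 + ∑ σ : K →ₐ[ℚ] ℂ, ∑ j, ‖σ (b j : K)‖ with hD
  have hD1 : 1 ≤ D := by
    rw [hD]
    have : 0 ≤ ∑ σ : K →ₐ[ℚ] ℂ, ∑ j, ‖σ (b j : K)‖ := by positivity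
    linarith
  have hDσ : ∀ σ : K →ₐ[ℚ] ℂ, ∑ j, ‖σ (b j : K)‖ ≤ D := by
    intro σ
    have h1 : ∑ j, ‖σ (b j : K)‖ ≤ ∑ σ : K →ₐ[ℚ] ℂ, ∑ j, ‖σ (b j : K)‖ :=
      Finset.single_le_sum (f := fun σ : K →ₐ[ℚ] ℂ => ∑ j, ‖σ (b j : K)‖)
        (fun _ _ => by positivity) (Finset.mem_univ σ)
    rw [hD]; linarith
  set r := (d - 1) + (d - 1) with hr
  have hr1 : 1 ≤ r := by omega
  refine ⟨(r.factorial : ℝ) * ((d + 1) * D), r * m, ?_, ?_⟩
  · have h1 : (1 : ℝ) ≤ r.factorial := by exact_mod_cast Nat.one_le_iff_ne_zero.2 (Nat.factorial_ne_zero r)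
    have h2 : (1 : ℝ) ≤ (d + 1) * D := by
      have : (0 : ℝ) ≤ d := Nat.cast_nonneg d
      nlinarith
    nlinarith
  intro H a hbox hsep S hS
  set x : 𝓞 K := rsF d (form a) with hx
  have hx0 : x ≠ 0 := by
    intro h
    apply rsF_ne_zero hd (k := K) (F := (form a).map (algebraMap (𝓞 K) K)) _ hsep
    · rw [rsF_map, ← hx, h, map_zero]
    · exact natDegree_map_le.trans (form_natDegree a)
  have hdvd : ∏ p ∈ S, p ∣ (Algebra.norm ℤ x).natAbs := by
    apply Finset.prod_primes_dvd
    · intro p hp; exact (hS p hp).1.prime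
    · intro p hp
      obtain ⟨hpp, P, hP, hpP, hns⟩ := hS p hp
      apply dvd_norm P p hpp hpP
      have hPmax : P.IsMaximal := by
        apply hP.isMaximal
        rintro rfl
        rw [Ideal.mem_bot, Nat.cast_eq_zero] at hpP
        exact hpp.ne_zero hpP
      letI : Field (𝓞 K ⧸ P) := Ideal.Quotient.field P
      have h1 := rsF_eq_zero hd (k := 𝓞 K ⧸ P) (F := (form a).map (Ideal.Quotient.mk P))
        (natDegree_map_le.trans (form_natDegree a)) hns
      rw [rsF_map] at h1
      exact Ideal.Quotient.eq_zero_iff_mem.1 h1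
  have hN0 : (Algebra.norm ℤ x).natAbs ≠ 0 := by
    rw [Int.natAbs_ne_zero, Algebra.norm_ne_zero_iff]
    exact hx0
  have hle : ∏ p ∈ S, p ≤ (Algebra.norm ℤ x).natAbs := Nat.le_of_dvd (Nat.pos_of_ne_zero hN0) hdvd
  have hB : ∀ σ : K →ₐ[ℚ] ℂ, ‖σ (x : K)‖ ≤ (r.factorial : ℝ) * ((d + 1) * (D * (H + 1))) ^ r := by
    intro σ
    have h1 : σ (x : K) = rsF d (form (fun i => σ (a i : K))) := by
      have h2 : form (fun i => σ (a i : K)) =
          (form a).map ((σ : K →+* ℂ).comp (algebraMap (𝓞 K) K)) := by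
        rw [form_map]; rfl
      rw [h2, rsF_map]
      rfl
    rw [h1]
    have hDH : 0 ≤ D * (H + 1) := by
      have : (0 : ℝ) ≤ H := Nat.cast_nonneg H
      nlinarith
    apply rsF_norm _ _ hDH
    intro i
    have h3 : (a i : K) = ∑ j, ((b.repr (a i) j : ℤ) : K) * (b j : K) := by
      conv_lhs => rw [← b.sum_repr (a i)]
      change algebraMap (𝓞 K) K (∑ j, b.repr (a i) j • b j) = _
      rw [map_sum]
      apply Finset.sum_congr rfl
      intro j _
      rw [zsmul_eq_mul, map_mul, map_intCast]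
    rw [h3, map_sum]
    calc ‖∑ j, σ (((b.repr (a i) j : ℤ) : K) * (b j : K))‖
        ≤ ∑ j, ‖σ (((b.repr (a i) j : ℤ) : K) * (b j : K))‖ := norm_sum_le _ _
      _ ≤ ∑ j, H * ‖σ (b j : K)‖ := by
          apply Finset.sum_le_sum
          intro j _
          rw [map_mul, map_intCast, norm_mul, Complex.norm_intCast]
          apply mul_le_mul_of_nonneg_right _ (norm_nonneg _)
          exact_mod_cast hbox i j
      _ = H * ∑ j, ‖σ (b j : K)‖ := by rw [Finset.mul_sum]
      _ ≤ D * (H + 1) := by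
          have h4 := hDσ σ
          have h5 : (0 : ℝ) ≤ H := Nat.cast_nonneg H
          nlinarith
  have hfin := norm_le x _ hB
  calc ((∏ p ∈ S, p : ℕ) : ℝ) ≤ ((Algebra.norm ℤ x).natAbs : ℝ) := by exact_mod_cast hle
    _ ≤ ((r.factorial : ℝ) * ((d + 1) * (D * (H + 1))) ^ r) ^ m := hfin
    _ ≤ (((r.factorial : ℝ) * ((d + 1) * D) * (H + 1)) ^ r) ^ m := by
        have h1 : (1 : ℝ) ≤ r.factorial := by
          exact_mod_cast Nat.one_le_iff_ne_zero.2 (Nat.factorial_ne_zero r)
        apply pow_le_pow_left₀ (by positivity)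
        have h2 : (r.factorial : ℝ) ≤ (r.factorial : ℝ) ^ r := le_self_pow₀ h1 (by omega)
        calc (r.factorial : ℝ) * ((d + 1) * (D * (H + 1))) ^ r
            ≤ (r.factorial : ℝ) ^ r * ((d + 1) * (D * (H + 1))) ^ r :=
              mul_le_mul_of_nonneg_right h2 (by positivity)
          _ = ((r.factorial : ℝ) * ((d + 1) * D) * (H + 1)) ^ r := by
              rw [← mul_pow]; ring_nf
    _ = ((r.factorial : ℝ) * ((d + 1) * D) * (H + 1)) ^ (r * m) := by rw [pow_mul]

end H31M
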