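import Pool.Agent.Helper31_Mean.LocQ
import Pool.Agent.Helper31_Mean.ResF
import Pool.Agent.Helper31_Mean.RedF
import Pool.Agent.Helper31_Mean.NumF

/-!
Uniform boundedness of torsion in the mean.
-/

open Polynomial NumberField

namespace H31M

section

variable {K : Type} [Field K] [NumberField K] {ι : Type} [Fintype ι]
  (b : Module.Basis ι ℤ (𝓞 K))

/-- forms of the box with at most one prime `7 ≤ p ≤ Q` of good reduction -/
def fewF (P : ℕ → Ideal (𝓞 K)) (d H Q : ℕ) : Set (Fin (d + 1) → 𝓞 K) :=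
  {a | (∀ i j, |b.repr (a i) j| ≤ H) ∧ GoodForm d ((form a).map (algebraMap (𝓞 K) K)) ∧
    ∃ p0 ≤ Q, ∀ p ∈ (OP7 Q).erase p0, ¬ GoodForm d ((form a).map (Ideal.Quotient.mk (P p)))}

theorem box_finiteF (n H : ℕ) : {a : Fin n → 𝓞 K | ∀ i j, |b.repr (a i) j| ≤ H}.Finite := by
  let co : (Fin n → 𝓞 K) → (Fin n × ι → ℤ) := fun a x => b.repr (a x.1) x.2
  have hco : Function.Injective co := by
    intro a a' h
    funext i
    apply b.repr.injective
    ext j
    exact congrFun h (i, j)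
  have hfin : {x : Fin n × ι → ℤ | ∀ j, |x j| ≤ H}.Finite := by
    apply Set.Finite.subset (Set.Finite.pi' (fun _ : Fin n × ι => Set.finite_Icc (-(H : ℤ)) H))
    intro x hx j
    exact Set.mem_Icc.2 (abs_le.1 (hx j))
  apply Set.Finite.of_finite_image (f := co) _ hco.injOn
  apply hfin.subset
  rintro _ ⟨a, ha, rfl⟩ x
  exact ha x.1 x.2

theorem fewF_mono (P : ℕ → Ideal (𝓞 K)) (d H : ℕ) {Q Q' : ℕ} (h : Q ≤ Q') :
    fewF b P d H Q' ⊆ fewF b P d H Q := by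
  rintro a ⟨h1, h2, p0, hp0, h3⟩
  refine ⟨h1, h2, ?_⟩
  by_cases hp : p0 ≤ Q
  · refine ⟨p0, hp, fun p hp => h3 p ?_⟩
    rw [Finset.mem_erase] at hp ⊢
    exact ⟨hp.1, OP7_mono h hp.2⟩
  · refine ⟨0, Nat.zero_le _, fun p hp' => h3 p ?_⟩
    rw [Finset.mem_erase] at hp' ⊢
    refine ⟨?_, OP7_mono h hp'.2⟩
    rintro rfl
    exact hp (mem_OP7.1 hp'.2).1

/-- the count when `Q` is small with respect to `H` -/
theorem fewF_small (P : ℕ → Ideal (𝓞 K)) (hP : ∀ p, p.Prime → (P p).IsPrime ∧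
      ((p : ℕ) : 𝓞 K) ∈ P p) (d : ℕ) (hd : 2 ≤ d) :
    ∃ C : ℝ, 0 < C ∧ ∀ H Q : ℕ, 4 ^ Q ≤ 2 * H + 1 →
      ((fewF b P d H Q).ncard : ℝ) ≤ C * Real.exp (-((Q : ℝ) / 8)) *
        (2 * H + 1) ^ Fintype.card (Fin (d + 1) × ι) := by
  classical
  obtain ⟨C1, hC1, hlow⟩ := erase_prod_lower7
  set N := Fintype.card (Fin (d + 1) × ι) with hN
  refine ⟨C1 * 1024 * 3 ^ N, by positivity, ?_⟩
  intro H Q hQ
  set box : ℕ → Set (Fin (d + 1) → 𝓞 K) := fun p0 => {a : Fin (d + 1) → 𝓞 K | (∀ i j, |b.repr (a i) j| ≤ H) ∧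
        ∀ p ∈ (OP7 Q).erase p0, ¬ GoodForm d ((form a).map (Ideal.Quotient.mk (P p)))} with hbox
  have hsub : fewF b P d H Q ⊆ ⋃ p0 ∈ Finset.range (Q + 1), box p0 := by
    rintro a ⟨h1, -, p0, hp0, h3⟩
    simp only [Set.mem_iUnion, Finset.mem_range]
    exact ⟨p0, by omega, h1, h3⟩
  have hfin : ∀ p0, (box p0).Finite := fun p0 =>
    (box_finiteF b (d + 1) H).subset fun a ha => ha.1
  have h1 : (fewF b P d H Q).ncard ≤ ∑ p0 ∈ Finset.range (Q + 1), (box p0).ncard := by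
    refine (Set.ncard_le_ncard hsub ?_).trans ?_
    · exact Set.Finite.biUnion (Finset.finite_toSet _) fun p0 _ => hfin p0
    · exact Finset.set_ncard_biUnion_le _ _
  have h2 : ∀ p0 ∈ Finset.range (Q + 1), ((box p0).ncard : ℝ) ≤
      C1 * (Q + 1) * Real.exp (-((Q : ℝ) / 4)) * (3 * (2 * H + 1)) ^ N := by
    intro p0 hp0
    rw [Finset.mem_range] at hp0
    have h3 := bad_countF b P hP d hd ((OP7 Q).erase p0)
      (fun p hp => (mem_OP7.1 (Finset.mem_of_mem_erase hp)).2.1) H (by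
        refine le_trans ?_ hQ
        refine le_trans ?_ (prod_OP7_le Q)
        apply Finset.prod_le_prod_of_subset_of_one_le' (Finset.erase_subset _ _)
        intro p hp _
        exact (mem_OP7.1 hp).2.1.one_lt.le)
    have h4 := hlow Q p0 (by omega)
    set Pi : ℝ := ∏ p ∈ (OP7 Q).erase p0, (((p : ℝ) - 1) / 2) with hPi
    have hPi0 : 0 < Pi := by
      apply Finset.prod_pos
      intro p hp
      have : (7 : ℝ) ≤ p := by exact_mod_cast (mem_OP7.1 (Finset.mem_of_mem_erase hp)).2.2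
      linarith
    have h5 : Real.exp (-((Q : ℝ) / 4)) * Real.exp ((Q : ℝ) / 4) = 1 := by
      rw [← Real.exp_add, neg_add_cancel, Real.exp_zero]
    have hE : 0 < Real.exp (-((Q : ℝ) / 4)) := Real.exp_pos _
    have h6 : 1 ≤ C1 * (Q + 1) * Real.exp (-((Q : ℝ) / 4)) * Pi := by
      calc (1 : ℝ) = Real.exp (-((Q : ℝ) / 4)) * Real.exp ((Q : ℝ) / 4) := h5.symm
        _ ≤ Real.exp (-((Q : ℝ) / 4)) * (C1 * (Q + 1) * Pi) := by gcongr
        _ = C1 * (Q + 1) * Real.exp (-((Q : ℝ) / 4)) * Pi := by ring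
    have hX : (0 : ℝ) ≤ (3 * (2 * H + 1)) ^ N := by positivity
    have h7 : ((box p0).ncard : ℝ) * Pi ≤
        (C1 * (Q + 1) * Real.exp (-((Q : ℝ) / 4)) * (3 * (2 * H + 1)) ^ N) * Pi := by
      refine h3.trans ?_
      calc (3 * (2 * (H : ℝ) + 1)) ^ N = 1 * (3 * (2 * (H : ℝ) + 1)) ^ N := by ring
        _ ≤ (C1 * (Q + 1) * Real.exp (-((Q : ℝ) / 4)) * Pi) * (3 * (2 * (H : ℝ) + 1)) ^ N := by
            gcongr
        _ = _ := by ring
    exact le_of_mul_le_mul_right h7 hPi0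
  have h8 : ((fewF b P d H Q).ncard : ℝ) ≤ (Q + 1) *
      (C1 * (Q + 1) * Real.exp (-((Q : ℝ) / 4)) * (3 * (2 * H + 1)) ^ N) := by
    calc ((fewF b P d H Q).ncard : ℝ) ≤ ((∑ p0 ∈ Finset.range (Q + 1), (box p0).ncard : ℕ) : ℝ) := by
          exact_mod_cast h1
      _ = ∑ p0 ∈ Finset.range (Q + 1), ((box p0).ncard : ℝ) := by push_cast; rfl
      _ ≤ ∑ _p0 ∈ Finset.range (Q + 1),
          C1 * (Q + 1) * Real.exp (-((Q : ℝ) / 4)) * (3 * (2 * H + 1)) ^ N :=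
          Finset.sum_le_sum h2
      _ = _ := by rw [Finset.sum_const, Finset.card_range, nsmul_eq_mul]; push_cast; ring
  refine h8.trans ?_
  have h9 := sq_le_exp Q
  have h10 : Real.exp (-((Q : ℝ) / 4)) * Real.exp ((Q : ℝ) / 8) = Real.exp (-((Q : ℝ) / 8)) := by
    rw [← Real.exp_add]; congr 1; ring
  calc (Q + 1) * (C1 * (Q + 1) * Real.exp (-((Q : ℝ) / 4)) * (3 * (2 * H + 1)) ^ N)
      = C1 * Real.exp (-((Q : ℝ) / 4)) * (3 * (2 * (H : ℝ) + 1)) ^ N * ((Q : ℝ) + 1) ^ 2 := by ring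
    _ ≤ C1 * Real.exp (-((Q : ℝ) / 4)) * (3 * (2 * (H : ℝ) + 1)) ^ N *
          (1024 * Real.exp ((Q : ℝ) / 8)) := by
        apply mul_le_mul_of_nonneg_left h9
        positivity
    _ = C1 * 1024 * 3 ^ N * (Real.exp (-((Q : ℝ) / 4)) * Real.exp ((Q : ℝ) / 8)) *
          (2 * (H : ℝ) + 1) ^ N := by rw [mul_pow]; ring
    _ = _ := by rw [h10]

/-- nonempty only if `Q` is at most logarithmic in `H` -/
theorem fewF_large (P : ℕ → Ideal (𝓞 K)) (hP : ∀ p, p.Prime → (P p).IsPrime ∧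
      ((p : ℕ) : 𝓞 K) ∈ P p) (d : ℕ) (hd : 2 ≤ d) :
    ∃ C : ℝ, 0 < C ∧ ∀ H Q : ℕ, (fewF b P d H Q).Nonempty →
      (Q : ℝ) ≤ C * (Real.log (2 * H + 1) + 1) := by
  classical
  obtain ⟨C1, hC1, hlow⟩ := erase_prod_lower7'
  obtain ⟨A, R, hA, hbad⟩ := bad_primesF K b d hd
  have hlA : 0 ≤ Real.log A := Real.log_nonneg hA
  refine ⟨8 * (|Real.log (C1 * 1024)| + R * Real.log A + R + 1), by positivity, ?_⟩
  rintro H Q ⟨a, h1, h2, p0, hp0, h3⟩
  have h4 := hbad H a h1 h2 ((OP7 Q).erase p0) (fun p hp => by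
    have hp' := (mem_OP7.1 (Finset.mem_of_mem_erase hp)).2.1
    exact ⟨hp', P p, (hP p hp').1, (hP p hp').2, h3 p hp⟩)
  have h5 := hlow Q p0 hp0
  have hH : (0 : ℝ) ≤ H := Nat.cast_nonneg H
  have hAH : 0 < A * ((H : ℝ) + 1) := by positivity
  have h6 : Real.exp ((Q : ℝ) / 4) ≤ C1 * (1024 * Real.exp ((Q : ℝ) / 8)) *
      (A * (H + 1)) ^ R := by
    refine h5.trans ?_
    apply mul_le_mul _ h4 (Nat.cast_nonneg _) (by positivity)
    exact mul_le_mul_of_nonneg_left (le_exp Q) hC1.le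
  have h7 : (Q : ℝ) / 4 ≤ Real.log (C1 * 1024) + (Q : ℝ) / 8 + R * Real.log (A * (H + 1)) := by
    have h8 := Real.log_le_log (Real.exp_pos _) h6
    rw [Real.log_exp, Real.log_mul (by positivity) (by positivity), ← mul_assoc,
      Real.log_mul (by positivity) (by positivity), Real.log_exp, Real.log_pow] at h8
    exact h8
  have h9 : Real.log (A * ((H : ℝ) + 1)) ≤ Real.log A + Real.log (2 * H + 1) := by
    rw [Real.log_mul (by positivity) (by positivity)]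
    have : Real.log ((H : ℝ) + 1) ≤ Real.log (2 * H + 1) :=
      Real.log_le_log (by positivity) (by linarith)
    linarith
  set ℓ := Real.log (2 * (H : ℝ) + 1) with hℓ
  have hℓ0 : 0 ≤ ℓ := Real.log_nonneg (by linarith)
  have hR : (0 : ℝ) ≤ R := Nat.cast_nonneg R
  have h10 : (R : ℝ) * Real.log (A * (H + 1)) ≤ R * Real.log A + R * ℓ := by
    calc (R : ℝ) * Real.log (A * (H + 1)) ≤ R * (Real.log A + ℓ) :=
          mul_le_mul_of_nonneg_left h9 hR
      _ = _ := by ring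
  have h11 := le_abs_self (Real.log (C1 * 1024))
  have h12 := abs_nonneg (Real.log (C1 * 1024))
  have h13 : 0 ≤ (R : ℝ) * Real.log A := mul_nonneg hR hlA
  have h14 : 0 ≤ (R : ℝ) * ℓ := mul_nonneg hR hℓ0
  nlinarith [mul_nonneg h12 hℓ0, mul_nonneg h13 hℓ0]

/-- the count for all `Q` -/
theorem fewF_count (P : ℕ → Ideal (𝓞 K)) (hP : ∀ p, p.Prime → (P p).IsPrime ∧
      ((p : ℕ) : 𝓞 K) ∈ P p) (d : ℕ) (hd : 2 ≤ d) :
    ∃ C c : ℝ, 0 < C ∧ 0 < c ∧ ∀ H Q : ℕ,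
      ((fewF b P d H Q).ncard : ℝ) ≤ C * Real.exp (-(c * Q)) *
        (2 * H + 1) ^ Fintype.card (Fin (d + 1) × ι) := by
  classical
  obtain ⟨C, hC, hsmall⟩ := fewF_small b P hP d hd
  obtain ⟨D, hD, hlarge⟩ := fewF_large b P hP d hd
  set N := Fintype.card (Fin (d + 1) × ι) with hN
  -- choose the constants
  set c : ℝ := min (1 / 8) (1 / (16 * D)) with hc
  have hc0 : 0 < c := lt_min (by norm_num) (by positivity)
  have hc1 : c ≤ 1 / 8 := min_le_left _ _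
  have hc2 : c * (16 * D) ≤ 1 := by
    have : c ≤ 1 / (16 * D) := min_le_right _ _
    rwa [le_div_iff₀ (by positivity)] at this
  refine ⟨C * Real.exp (1 / 2), c, by positivity, hc0, ?_⟩
  intro H Q
  have hX : (0 : ℝ) ≤ (2 * H + 1) ^ N := by positivity
  by_cases hne : (fewF b P d H Q).Nonempty
  swap
  · rw [Set.not_nonempty_iff_eq_empty] at hne
    rw [hne, Set.ncard_empty, Nat.cast_zero]
    positivity
  by_cases hQ : 4 ^ Q ≤ 2 * H + 1
  · refine (hsmall H Q hQ).trans ?_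
    apply mul_le_mul_of_nonneg_right _ hX
    have h1 : Real.exp (-((Q : ℝ) / 8)) ≤ Real.exp (-(c * Q)) := by
      apply Real.exp_le_exp.2
      have : (0 : ℝ) ≤ Q := Nat.cast_nonneg Q
      nlinarith
    have h2 : (1 : ℝ) ≤ Real.exp (1 / 2) := Real.one_le_exp (by norm_num)
    calc C * Real.exp (-((Q : ℝ) / 8)) ≤ C * Real.exp (-(c * Q)) := by gcongr
      _ = C * 1 * Real.exp (-(c * Q)) := by ring
      _ ≤ C * Real.exp (1 / 2) * Real.exp (-(c * Q)) := by gcongr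
  · set Q0 := Nat.log 4 (2 * H + 1) with hQ0
    have h1 : 4 ^ Q0 ≤ 2 * H + 1 := Nat.pow_log_le_self 4 (by omega)
    have h2 : 2 * H + 1 < 4 ^ (Q0 + 1) := Nat.lt_pow_succ_log_self (by norm_num) _
    have h3 : Q0 ≤ Q := by
      by_contra h
      push Not at h
      apply hQ
      exact (Nat.pow_le_pow_right (by norm_num) h.le).trans h1
    have h4 := hsmall H Q0 h1
    have h5 : ((fewF b P d H Q).ncard : ℝ) ≤ ((fewF b P d H Q0).ncard : ℝ) := by
      exact_mod_cast Set.ncard_le_ncard (fewF_mono b P d H h3)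
        ((box_finiteF b (d + 1) H).subset fun a ha => ha.1)
    have h6 := hlarge H Q hne
    have h7 : Real.log (2 * (H : ℝ) + 1) ≤ 2 * (Q0 + 1) := by
      have h8 : Real.log (2 * (H : ℝ) + 1) ≤ Real.log ((4 : ℝ) ^ (Q0 + 1)) := by
        apply Real.log_le_log (by positivity)
        exact_mod_cast h2.le
      rw [Real.log_pow] at h8
      have h9 : Real.log 4 ≤ 2 := by
        have h10 : (4 : ℝ) = 2 ^ 2 := by norm_num
        rw [h10, Real.log_pow]
        have := Real.log_two_lt_d9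
        push_cast
        linarith
      refine h8.trans ?_
      push_cast
      have : (0 : ℝ) ≤ (Q0 : ℝ) + 1 := by positivity
      nlinarith
    have h8 : c * Q ≤ (Q0 : ℝ) / 8 + 1 / 2 := by
      have h9 : (Q : ℝ) ≤ D * (2 * Q0 + 3) := by
        refine h6.trans ?_
        apply mul_le_mul_of_nonneg_left _ hD.le
        linarith
      have h10 : c * Q ≤ c * (D * (2 * Q0 + 3)) := mul_le_mul_of_nonneg_left h9 hc0.le
      have h11 : c * (D * (2 * Q0 + 3)) = (c * (16 * D)) * ((2 * (Q0 : ℝ) + 3) / 16) := by ring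
      have h12 : (c * (16 * D)) * ((2 * (Q0 : ℝ) + 3) / 16) ≤ 1 * ((2 * (Q0 : ℝ) + 3) / 16) :=
        mul_le_mul_of_nonneg_right hc2 (by positivity)
      linarith
    refine h5.trans (h4.trans ?_)
    apply mul_le_mul_of_nonneg_right _ hX
    rw [mul_assoc, ← Real.exp_add]
    apply mul_le_mul_of_nonneg_left _ hC.le
    apply Real.exp_le_exp.2
    linarith

end

end H31M
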