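import Mathlib

/-!
Products over the odd primes up to `Q`.
-/

open Real Chebyshev

namespace H31M

/-- the odd primes up to `Q` -/
def OP (Q : ℕ) : Finset ℕ := (Finset.range (Q + 1)).filter (fun p => p.Prime ∧ p ≠ 2)

theorem mem_OP {Q p : ℕ} : p ∈ OP Q ↔ p ≤ Q ∧ p.Prime ∧ p ≠ 2 := by
  simp [OP, Nat.lt_succ_iff]

theorem OP_mono {Q Q' : ℕ} (h : Q ≤ Q') : OP Q ⊆ OP Q' := by
  intro p hp
  rw [mem_OP] at hp ⊢
  exact ⟨hp.1.trans h, hp.2⟩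

theorem theta_lower : ∃ C0 : ℝ, 0 ≤ C0 ∧ ∀ n : ℕ, (n : ℝ) / 2 - C0 ≤ θ n := by
  obtain ⟨C, hC⟩ := psi_sub_theta_le_mul_sqrt
  set D : ℝ := |C| + 2 with hD
  have hD2 : 2 ≤ D := by rw [hD]; have := abs_nonneg C; linarith
  refine ⟨2 * D ^ 2 + 2, by positivity, ?_⟩
  intro n
  have h1 := hC n
  have h2 := psi_ge n
  have h3 : C * √(n : ℝ) ≤ |C| * √n := mul_le_mul_of_nonneg_right (le_abs_self C) (sqrt_nonneg _)
  have h4 : log ((n : ℝ) + 1) ≤ 2 * √n + 2 := by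
    have h5 : log ((n : ℝ) + 1) = 2 * log (√((n : ℝ) + 1)) := by
      rw [log_sqrt (by positivity)]; ring
    have h6 : log (√((n : ℝ) + 1)) ≤ √((n : ℝ) + 1) - 1 := log_le_sub_one_of_pos (by positivity)
    have h7 : √((n : ℝ) + 1) ≤ √n + 1 := by
      rw [sqrt_le_left (by positivity)]
      have := sq_sqrt (Nat.cast_nonneg n : (0 : ℝ) ≤ n)
      have h0 := sqrt_nonneg (n : ℝ)
      nlinarith
    rw [h5]; linarith
  have hs := sq_sqrt (Nat.cast_nonneg n : (0 : ℝ) ≤ n)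
  have hs0 := sqrt_nonneg (n : ℝ)
  have hlog : 0.6931471803 < log 2 := log_two_gt_d9
  have hn : (0 : ℝ) ≤ n := Nat.cast_nonneg n
  have h8 : (n : ℝ) * 0.69 ≤ n * log 2 := by nlinarith
  have h9 : D * √n ≤ 0.19 * n + 2 * D ^ 2 := by
    nlinarith [sq_nonneg (0.4 * √n - 1.25 * D), sq_nonneg (√(n : ℝ)), sq_nonneg D]
  have h10 : D * √n = |C| * √n + 2 * √n := by rw [hD]; ring
  linarith

theorem prod_OP_le (Q : ℕ) : ∏ p ∈ OP Q, p ≤ 4 ^ Q := by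
  refine le_trans ?_ (primorial_le_four_pow Q)
  rw [primorial]
  apply Finset.prod_le_prod_of_subset_of_one_le'
  · intro p hp
    rw [mem_OP] at hp
    simp only [Finset.mem_filter, Finset.mem_range]
    exact ⟨by omega, hp.2.1⟩
  · intro p hp _
    simp only [Finset.mem_filter] at hp
    exact hp.2.one_lt.le

theorem primorial_le_OP (Q : ℕ) : primorial Q ≤ 2 * ∏ p ∈ OP Q, p := by
  have h1 : (Finset.range (Q + 1)).filter Nat.Prime ⊆ insert 2 (OP Q) := by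
    intro p hp
    simp only [Finset.mem_filter, Finset.mem_range] at hp
    by_cases h : p = 2
    · rw [h]; exact Finset.mem_insert_self _ _
    · exact Finset.mem_insert_of_mem (mem_OP.2 ⟨by omega, hp.2, h⟩)
  have h2 : 2 ∉ OP Q := by
    intro h
    exact (mem_OP.1 h).2.2 rfl
  rw [← Finset.prod_insert (f := fun p => p) h2, primorial]
  apply Finset.prod_le_prod_of_subset_of_one_le' h1
  intro p hp _
  rcases Finset.mem_insert.1 hp with h | h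
  · omega
  · exact (mem_OP.1 h).2.1.one_lt.le

/-- `∏ p ≥ e^θ / 2` -/
theorem exp_theta_le (Q : ℕ) : exp (θ Q) ≤ 2 * ((∏ p ∈ OP Q, p : ℕ) : ℝ) := by
  rw [theta_eq_log_primorial, Nat.floor_natCast, exp_log (by exact_mod_cast primorial_pos Q)]
  exact_mod_cast primorial_le_OP Q

theorem sqrt_prod_le (S : Finset ℕ) (hS : ∀ p ∈ S, 3 ≤ p) :
    √((∏ p ∈ S, p : ℕ) : ℝ) ≤ ∏ p ∈ S, ((p : ℝ) - 1) := by
  rw [Nat.cast_prod, Real.sqrt_prod S (fun i _ => Nat.cast_nonneg i)]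
  apply Finset.prod_le_prod (fun _ _ => sqrt_nonneg _)
  intro p hp
  have h3 : (3 : ℝ) ≤ p := by exact_mod_cast hS p hp
  rw [sqrt_le_left (by linarith)]
  nlinarith

theorem OP_three {Q p : ℕ} (hp : p ∈ OP Q) : 3 ≤ p := by
  rw [mem_OP] at hp
  have := hp.2.1.two_le
  omega

/-- lower bound for `∏ (p - 1)` over all odd primes up to `Q` but at most one -/
theorem erase_prod_lower : ∃ C1 : ℝ, 0 < C1 ∧ ∀ Q p0 : ℕ, p0 ≤ Q →
    exp ((Q : ℝ) / 4) ≤ C1 * (Q + 1) * ∏ p ∈ (OP Q).erase p0, ((p : ℝ) - 1) := by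
  obtain ⟨C0, hC0, hθ⟩ := theta_lower
  refine ⟨2 * exp (C0 / 2), by positivity, ?_⟩
  intro Q p0 hp0
  have h1 : exp (θ Q / 2) ≤ √2 * √((∏ p ∈ OP Q, p : ℕ) : ℝ) := by
    have h2 : exp (θ Q / 2) = √(exp (θ Q)) := by
      rw [Real.sqrt_eq_rpow, ← Real.exp_mul]; ring_nf
    rw [h2, ← Real.sqrt_mul (by norm_num)]
    exact sqrt_le_sqrt (exp_theta_le Q)
  have h2 : √(2 : ℝ) ≤ 2 := by
    rw [sqrt_le_left (by norm_num)]; norm_num
  have h3 : √((∏ p ∈ OP Q, p : ℕ) : ℝ) ≤ (Q + 1) * ∏ p ∈ (OP Q).erase p0, ((p : ℝ) - 1) := by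
    refine (sqrt_prod_le (OP Q) (fun p hp => OP_three hp)).trans ?_
    have hnn : 0 ≤ ∏ p ∈ (OP Q).erase p0, ((p : ℝ) - 1) := by
      apply Finset.prod_nonneg
      intro p hp
      have : (3 : ℝ) ≤ p := by exact_mod_cast OP_three (Finset.mem_of_mem_erase hp)
      linarith
    by_cases h : p0 ∈ OP Q
    · rw [← Finset.mul_prod_erase _ _ h]
      apply mul_le_mul_of_nonneg_right _ hnn
      have : (p0 : ℝ) ≤ Q := by exact_mod_cast hp0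
      linarith
    · rw [Finset.erase_eq_of_notMem h] at hnn ⊢
      have : (0 : ℝ) ≤ Q := Nat.cast_nonneg Q
      nlinarith
  have h4 := hθ Q
  have h5 : (Q : ℝ) / 4 ≤ C0 / 2 + θ Q / 2 := by linarith
  have hnn : 0 ≤ √((∏ p ∈ OP Q, p : ℕ) : ℝ) := sqrt_nonneg _
  calc exp ((Q : ℝ) / 4) ≤ exp (C0 / 2 + θ Q / 2) := exp_le_exp.2 h5
    _ = exp (C0 / 2) * exp (θ Q / 2) := exp_add _ _
    _ ≤ exp (C0 / 2) * (2 * ((Q + 1) * ∏ p ∈ (OP Q).erase p0, ((p : ℝ) - 1))) := by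
        apply mul_le_mul_of_nonneg_left _ (exp_pos _).le
        refine h1.trans ?_
        calc √2 * √((∏ p ∈ OP Q, p : ℕ) : ℝ) ≤ 2 * √((∏ p ∈ OP Q, p : ℕ) : ℝ) :=
              mul_le_mul_of_nonneg_right h2 hnn
          _ ≤ _ := mul_le_mul_of_nonneg_left h3 (by norm_num)
    _ = 2 * exp (C0 / 2) * (Q + 1) * ∏ p ∈ (OP Q).erase p0, ((p : ℝ) - 1) := by ring

/-- lower bound for `∏ p` over all odd primes up to `Q` but at most one -/
theorem erase_prod_lower' : ∃ C1 : ℝ, 0 < C1 ∧ ∀ Q p0 : ℕ, p0 ≤ Q →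
    exp ((Q : ℝ) / 4) ≤ C1 * (Q + 1) * ((∏ p ∈ (OP Q).erase p0, p : ℕ) : ℝ) := by
  obtain ⟨C1, hC1, h⟩ := erase_prod_lower
  refine ⟨C1, hC1, fun Q p0 hp0 => (h Q p0 hp0).trans ?_⟩
  apply mul_le_mul_of_nonneg_left _ (by positivity)
  rw [Nat.cast_prod]
  apply Finset.prod_le_prod
  · intro p hp
    have : (3 : ℝ) ≤ p := by exact_mod_cast OP_three (Finset.mem_of_mem_erase hp)
    linarith
  · intro p _
    linarith

theorem sq_le_exp (Q : ℕ) : ((Q : ℝ) + 1) ^ 2 ≤ 1024 * exp ((Q : ℝ) / 8) := by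
  have hQ : (0 : ℝ) ≤ Q := Nat.cast_nonneg Q
  have h1 : ((Q : ℝ) + 1) / 16 ≤ exp (((Q : ℝ) + 1) / 16) := by
    have := add_one_le_exp (((Q : ℝ) + 1) / 16)
    linarith
  have h2 : ((Q : ℝ) + 1) ≤ 16 * exp (((Q : ℝ) + 1) / 16) := by linarith
  have h3 : exp (((Q : ℝ) + 1) / 16) ^ 2 = exp ((Q : ℝ) / 8) * exp (1 / 8) := by
    rw [← exp_nat_mul, ← exp_add]
    congr 1
    push_cast
    ring
  have h4 : exp (1 / 8 : ℝ) ≤ 4 := by
    have h5 : exp (1 / 8 : ℝ) ≤ exp 1 := exp_le_exp.2 (by norm_num)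
    have := exp_one_lt_d9
    linarith
  calc ((Q : ℝ) + 1) ^ 2 ≤ (16 * exp (((Q : ℝ) + 1) / 16)) ^ 2 :=
        pow_le_pow_left₀ (by positivity) h2 2
    _ = 256 * (exp ((Q : ℝ) / 8) * exp (1 / 8)) := by rw [mul_pow, h3]; norm_num
    _ ≤ 256 * (exp ((Q : ℝ) / 8) * 4) := by
        have := exp_pos ((Q : ℝ) / 8)
        gcongr
    _ = 1024 * exp ((Q : ℝ) / 8) := by ring

theorem le_exp (Q : ℕ) : ((Q : ℝ) + 1) ≤ 1024 * exp ((Q : ℝ) / 8) := by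
  refine le_trans ?_ (sq_le_exp Q)
  have hQ : (0 : ℝ) ≤ Q := Nat.cast_nonneg Q
  nlinarith

end H31M
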